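import Pool.Agent.W423.NT.Defs2

set_option autoImplicit false

/-! Project NT: roots of `b` that come from the divisor `g_k = 0` itself. -/

namespace Pool.Agent.W423.NT

open MvPolynomial

/-- Part ROOT: if `f = ∏ G_k ^ (m_k) = π ^ e * h` with `π` irreducible, `π ∤ h`, and `π(0) = 0` in
the local case, then `b(- j / e) = 0` for `1 ≤ j ≤ e`. -/
def TaskROOT : Prop := ∀ {N P : ℕ} (loc : Prop) (G : Fin (P+1) → MvPolynomial (Fin N) ℂ)
  (m : Fin (P+1) → ℕ) (b : Polynomial ℂ) (π h : MvPolynomial (Fin N) ℂ) (e : ℕ),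
  FEQ (d := 1) loc (fun k _ => m k) G (Polynomial.aeval (X 0) b) →
  Irreducible π → ¬ π ∣ h → (loc → constantCoeff π = 0) → (∏ k, G k ^ m k) = π ^ e * h →
  ∀ j : ℕ, 1 ≤ j → j ≤ e → b.eval (-(j : ℂ) / (e : ℂ)) = 0

end Pool.Agent.W423.NT
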