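import Pool.Agent.W423.NT.Ev
import Pool.Agent.W423.NT.Defs3

set_option autoImplicit false

/-! Project NT: the theorem for products, from the parts. -/

namespace Pool.Agent.W423.NT

open MvPolynomial Pool.Agent.H628R4.TZ Pool.Agent.W425.SM
open Pool.Agent.H628R4.TP hiding Sh
open Pool.Agent.W525.SM (Sh)
open Pool.Agent.W423.MG
open Pool.Agent.W423.NC
open Pool.Agent.W423.NX
open Pool.Agent.W425.ND (Gen Nondeg spa dC TaskCN TaskEXP TaskNAK prodb)
open MeasureTheory Set Filter Topology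

variable {r N P : ℕ}

/-- Every `g_k` has an irreducible factor that does not divide the other `g_l` (and, if `loc`,
vanishes at the origin). -/
def OwnFactor (loc : Prop) (G : Fin (P+1) → MvPolynomial (Fin N) ℂ) : Prop :=
  ∀ k, ∃ π : MvPolynomial (Fin N) ℂ, Irreducible π ∧ π ∣ G k ∧ (∀ l, l ≠ k → ¬ π ∣ G l) ∧
    (loc → constantCoeff π = 0)

theorem root_mod (hROOT : TaskROOT) (loc : Prop) (G : Fin (P+1) → MvPolynomial (Fin N) ℂ)
    (m : Fin (P+1) → ℕ) (b : Polynomial ℂ) (hG : ∀ k, G k ≠ 0) (hm : ∀ k, 1 ≤ m k)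
    (hown : OwnFactor loc G)
    (hFE : FEQ (d := 1) loc (fun k _ => m k) G (Polynomial.aeval (X 0) b))
    (k : Fin (P+1)) (i : ℕ) (s : ℂ) (hs : (m k : ℂ) * s + (i : ℂ) = 0) :
    ∃ z : ℤ, b.eval (s + z) = 0 := by
  classical
  obtain ⟨π, hπ, hdk, hdl, hπ0⟩ := hown k
  have hprime : Prime π := hπ.prime
  obtain ⟨u, hu, hu2⟩ := (FiniteMultiplicity.of_not_isUnit hπ.not_isUnit (hG k)).exists_eq_pow_mul_and_not_dvd
  set c := multiplicity π (G k) with hc
  have hc1 : 1 ≤ c := by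
    by_contra hlt
    have h0 : c = 0 := by omega
    rw [h0, pow_zero, one_mul] at hu
    exact hu2 (hu ▸ hdk)
  have hf : (∏ l, G l ^ m l) = π ^ (c * m k) * (u ^ m k * ∏ l ∈ Finset.univ.erase k, G l ^ m l) := by
    rw [← Finset.mul_prod_erase Finset.univ _ (Finset.mem_univ k)]
    conv_lhs => rw [hu]
    ring
  have hnd : ¬ π ∣ (u ^ m k * ∏ l ∈ Finset.univ.erase k, G l ^ m l) := by
    intro hd
    rcases hprime.dvd_or_dvd hd with h1 | h1
    · exact hu2 (hprime.dvd_of_dvd_pow h1)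
    · obtain ⟨l, hl, h2⟩ := (Prime.dvd_finsetProd_iff hprime _).1 h1
      exact hdl l (Finset.ne_of_mem_erase hl) (hprime.dvd_of_dvd_pow h2)
  set e := c * m k with he
  have he1 : 1 ≤ e := Nat.mul_pos hc1 (hm k)
  have hroot := hROOT loc G m b π _ e hFE hπ hnd hπ0 hf
  -- the residue
  set t := i * c with ht
  obtain ⟨j, q, hj1, hj2, hjq⟩ : ∃ (j : ℕ) (q : ℤ), 1 ≤ j ∧ j ≤ e ∧ (t : ℤ) = j + e * q := by
    by_cases h0 : t % e = 0
    · refine ⟨e, (t / e : ℕ) - 1, he1, le_refl _, ?_⟩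
      have h1 := Nat.div_add_mod t e
      rw [h0, add_zero] at h1
      have h2 : (t : ℤ) = e * (t / e : ℕ) := by exact_mod_cast h1.symm
      rw [h2]
      push_cast
      ring
    · refine ⟨t % e, (t / e : ℕ), Nat.pos_of_ne_zero h0, (Nat.mod_lt _ he1).le, ?_⟩
      have h1 := Nat.mod_add_div t e
      exact_mod_cast h1.symm
  refine ⟨q, ?_⟩
  have h1 := hroot j hj1 hj2
  have hmk : (m k : ℂ) ≠ 0 := by
    have := hm k
    exact_mod_cast (by omega : m k ≠ 0)
  have hcc : (c : ℂ) ≠ 0 := by exact_mod_cast (by omega : c ≠ 0)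
  have hee : (e : ℂ) = c * m k := by rw [he]; push_cast; ring
  have hee0 : (e : ℂ) ≠ 0 := by rw [hee]; exact mul_ne_zero hcc hmk
  have h3 : (i : ℂ) * c = j + e * q := by
    have : ((t : ℤ) : ℂ) = ((j + e * q : ℤ) : ℂ) := by rw [hjq]
    rw [ht] at this
    push_cast at this
    exact this
  have h2 : s + (q : ℂ) = -(j : ℂ) / (e : ℂ) := by
    rw [eq_div_iff hee0, add_mul]
    have h4 : s * (e : ℂ) = -((i : ℂ) * c) := by
      rw [hee]
      linear_combination (c : ℂ) * hs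
    rw [h4, h3]
    ring
  rw [h2]
  exact h1

theorem poleP_of (hROOT : TaskROOT) (loc : Prop) (G : Fin (P+1) → MvPolynomial (Fin N) ℂ)
    (m : Fin (P+1) → ℕ) (b : Polynomial ℂ) (hG : ∀ k, G k ≠ 0) (hm : ∀ k, 1 ≤ m k)
    (hown : OwnFactor loc G)
    (hFE : FEQ (d := 1) loc (fun k _ => m k) G (Polynomial.aeval (X 0) b))
    (K n : ℕ) (Z : Polynomial ℂ) (Zf : RatFunc ℂ)
    (hZ : algebraMap (Polynomial ℂ) (RatFunc ℂ) (prodb b K *
        (∏ k : Fin (P+1), ∏ i ∈ Finset.range n,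
          (Polynomial.C ((m k : ℕ) : ℂ) * Polynomial.X + Polynomial.C (i : ℂ))) ^ 3) *
        Zf = algebraMap (Polynomial ℂ) (RatFunc ℂ) Z) (s : ℂ) (hs : Zf.denom.eval s = 0) :
    ∃ z : ℤ, b.eval (s + z) = 0 := by
  classical
  by_cases hb0 : b = 0
  · exact ⟨0, by rw [hb0, Polynomial.eval_zero]⟩
  set D := prodb b K * (∏ k : Fin (P+1), ∏ i ∈ Finset.range n,
    (Polynomial.C ((m k : ℕ) : ℂ) * Polynomial.X + Polynomial.C (i : ℂ))) ^ 3 with hD
  have hlin : ∀ (k : Fin (P+1)) (i : ℕ),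
      (Polynomial.C ((m k : ℕ) : ℂ) * Polynomial.X + Polynomial.C (i : ℂ)) ≠ 0 := by
    intro k i h0
    have h1 := congrArg (fun p : Polynomial ℂ => p.coeff 1) h0
    simp only [Polynomial.coeff_add, Polynomial.coeff_C_mul, Polynomial.coeff_X_one,
      Polynomial.coeff_C_succ, Polynomial.coeff_zero, add_zero, mul_one] at h1
    have := hm k
    exact absurd h1 (by exact_mod_cast (by omega : m k ≠ 0))
  have hpb : prodb b K ≠ 0 := by
    unfold prodb
    rw [Finset.prod_ne_zero_iff]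
    intro i _ h0
    rcases Polynomial.comp_eq_zero_iff.1 h0 with h1 | ⟨_, h1⟩
    · exact hb0 h1
    · have h2 := congrArg (fun p : Polynomial ℂ => p.coeff 1) h1
      simp at h2
  have hD0 : D ≠ 0 := by
    rw [hD]
    refine mul_ne_zero hpb (pow_ne_zero _ ?_)
    rw [Finset.prod_ne_zero_iff]
    intro k _
    rw [Finset.prod_ne_zero_iff]
    intro i _
    exact hlin k i
  have hDf : algebraMap (Polynomial ℂ) (RatFunc ℂ) D ≠ 0 := by
    rw [Ne, map_eq_zero_iff _ (IsFractionRing.injective (Polynomial ℂ) (RatFunc ℂ))]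
    exact hD0
  have hdvd : Zf.denom ∣ D := by
    rw [RatFunc.denom_dvd hD0]
    refine ⟨Z, ?_⟩
    rw [eq_div_iff hDf, mul_comm]
    exact hZ
  obtain ⟨D', hD'⟩ := hdvd
  have h1 : D.eval s = 0 := by rw [hD', Polynomial.eval_mul, hs, zero_mul]
  rw [hD, Polynomial.eval_mul, Polynomial.eval_pow] at h1
  rcases mul_eq_zero.1 h1 with h2 | h2
  · unfold prodb at h2
    rw [Polynomial.eval_prod, Finset.prod_eq_zero_iff] at h2
    obtain ⟨i, _, h3⟩ := h2
    refine ⟨-(i : ℤ), ?_⟩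
    rw [Polynomial.eval_comp] at h3
    simpa [sub_eq_add_neg] using h3
  · have h3 := pow_eq_zero_iff (by norm_num : (3:ℕ) ≠ 0) |>.1 h2
    rw [Polynomial.eval_prod, Finset.prod_eq_zero_iff] at h3
    obtain ⟨k, _, h4⟩ := h3
    rw [Polynomial.eval_prod, Finset.prod_eq_zero_iff] at h4
    obtain ⟨i, _, h5⟩ := h4
    refine root_mod hROOT loc G m b hG hm hown hFE k i s ?_
    simpa using h5

end Pool.Agent.W423.NT
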