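import Pool.Agent.W423.NT.FinY
import Pool.Agent.W423.NT.FinP
import Pool.Agent.W947.NT.V2E
import Pool.Agent.W378.NT.RelPW
import Pool.Agent.W21.NT.Modl
import Pool.Agent.W351.NT.FE
import Pool.Agent.W503.NX.Rise
import Pool.Agent.W688.NX.KILL
import Pool.Agent.W177.NX.KerX
import Pool.Agent.W253.NC.Ker2
import Pool.Agent.W310.NX.Lim
import Pool.Agent.W423.NX.IdxX
import Pool.Agent.W806.NX.ZetaP

set_option autoImplicit false

/-! Project NT: products of powers, with all parts. -/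

namespace Pool.Agent.W423.NT

open MvPolynomial Pool.Agent.H628R4.TZ Pool.Agent.W425.SM
open Pool.Agent.W423.MG
open Pool.Agent.W423.NC
open Pool.Agent.W423.NX
open Pool.Agent.W425.ND (prodb)

variable {r N P : ℕ}

theorem prodND (hROOT : TaskROOT) (g : Fin r → Fin (P+1)) (v : Fin r → Fin N → ℕ)
    (a : Fin r → ℂ) (hg : ∀ k, ∃ j, g j = k) (hnd : NondegT g v a) :
    ∃ K : ℕ, ∀ (loc : Prop) (m : Fin (P+1) → ℕ), (∀ k, 1 ≤ m k) → ∀ θ : Fin r → ℝ,
      LinearIndependent ℚ θ → ∀ R : SmoothFan N, PrincipalG g v R → ∀ b : Polynomial ℂ,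
      FEQ (d := 1) loc (fun k _ => m k) (polyG g v a) (Polynomial.aeval (X 0) b) →
      (∃ (n : ℕ) (Z : Polynomial ℂ),
        algebraMap (Polynomial ℂ) (RatFunc ℂ) (prodb b K *
          (∏ k : Fin (P+1), ∏ i ∈ Finset.range n,
            (Polynomial.C ((m k : ℕ) : ℂ) * Polynomial.X + Polynomial.C (i : ℂ))) ^ 3) *
          topZetaP loc g v θ m R = algebraMap (Polynomial ℂ) (RatFunc ℂ) Z) ∧
      (OwnFactor loc (polyG g v a) → ∀ s : ℂ, (topZetaP loc g v θ m R).denom.eval s = 0 →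
        ∃ z : ℤ, b.eval (s + z) = 0) := by
  obtain ⟨K, hK⟩ := relY g v a hg hnd
  refine ⟨K, fun loc m hm θ hθ R hR b hb => ?_⟩
  obtain ⟨n, Z, hZ⟩ := productW_of Pool.Agent.W947.NT.v2e
    (Pool.Agent.W378.NTQ.relPW_of Pool.Agent.W21.NT.taskModL Pool.Agent.W503.NX.rise_mem)
    Pool.Agent.W688.NX.taskKillX Pool.Agent.W177.NX.taskKerX Pool.Agent.W253.NC.ker2
    (Pool.Agent.W310.NX.limX_of Pool.Agent.W423.NX.IdxX.idx) Pool.Agent.W806.NX.taskZetaP
    g v a hg K hK loc m hm θ hθ R hR b hb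
  exact ⟨⟨n, Z, hZ⟩, fun hown s hs => poleP_of hROOT loc (polyG g v a) m b
    (polyG_ne_zero g v a hnd) hm hown hb K n Z _ hZ s hs⟩

end Pool.Agent.W423.NT
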