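import Pool.Agent.W423.NT.Defs

set_option autoImplicit false

/-! Project NT: the sharper numerical relation. -/

namespace Pool.Agent.W423.NT

open MvPolynomial Pool.Agent.H628R4.TZ Pool.Agent.W425.SM
open Pool.Agent.H628R4.TP hiding Sh
open Pool.Agent.W423.MG
open Pool.Agent.W423.NC
open Pool.Agent.W423.NX

/-- The numerical relation at all `u ∈ ℕ ^ r` whose group sums are in `E`; the terms `c0` come
from the coefficient `A` and are multiplied by `bs`, the terms `c2` only occur if `loc`. -/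
def NumRelV {r N P : ℕ} (loc : Prop) (g : Fin r → Fin (P+1)) (v : Fin r → Fin N → ℕ)
    (θ : Fin r → ℝ) (m : Fin (P+1) → ℕ) (E : Set (Fin (P+1) → ℕ))
    (bs : (Fin (P+1) → ℕ) → ℂ) : Prop :=
  ∃ (M n n0 n2 : ℕ) (c : Fin n → Fin r → ℤ) (B : Fin n → Finset (Fin N))
    (q : Fin n → MvPolynomial (Fin r) ℂ) (c0 : Fin n0 → Fin r → ℤ)
    (q0 : Fin n0 → MvPolynomial (Fin r) ℂ) (c2 : Fin n2 → Fin r → ℤ)
    (q2 : Fin n2 → MvPolynomial (Fin r) ℂ),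
    1 ≤ M ∧ (∀ t, Kd1 g v m (c t) (B t)) ∧ (∀ t, Kd0 g v θ False (c0 t)) ∧
    (∀ t, loc ∧ Kd0 g v θ loc (c2 t)) ∧
    (∀ t, (∏ j ∈ Finset.univ.filter (fun j => c0 t j = 0), dm M j) ∣ q0 t) ∧
    ∀ u : Fin r → ℕ, gs g u ∈ E →
      bs (gs g u) * eval (fun j => (u j : ℂ)) (∏ j, dm M j +
          ∑ t, (∏ j, if c0 t j < 0 then X j * dm M j else 1) * q0 t) =
        (∏ k, ∏ i ∈ Finset.range (m k), (((gs g u k : ℕ) : ℂ) + i + 1)) *
          eval (fun j => (u j : ℂ)) (∑ t, (∏ i ∈ B t, el v i) *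
            ((∏ j, if c t j < 0 then X j * dm M j else 1) * q t)) +
          eval (fun j => (u j : ℂ))
            (∑ t, (∏ j, if c2 t j < 0 then X j * dm M j else 1) * q2 t)

/-- Part V2E, sharper form. -/
def TaskV2EV : Prop := ∀ (d r N P : ℕ) (loc : Prop) (M : Fin (P+1) → Fin d → ℕ)
  (ν : Fin d → MvPolynomial (Fin (P+1)) ℂ) (g : Fin r → Fin (P+1)) (v : Fin r → Fin N → ℕ)
  (A : MvPolynomial (Fin r) ℂ) (B : MvPolynomial (Fin d) ℂ) (θ : Fin r → ℝ),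
  (∀ (n : Fin d → ℕ) (t : Fin d), eval (fun k => (SM M n k : ℂ)) (ν t) = (n t : ℂ)) →
  LinearIndependent ℚ θ → (∀ k, ∃ j, g j = k) → (∀ l, 1 ≤ rowM M l) → A ≠ 0 →
  RelQ loc M g v (polyR g v (X : Fin r → MvPolynomial (Fin r) ℂ)) A B →
  ∀ bs : (Fin (P+1) → ℕ) → ℂ, (∀ n, bs (SM M n) = eval (fun t => (n t : ℂ)) B) →
  ∃ L : ℕ, NumRelV loc g v θ (rowM M) {s | ∃ n : Fin d → ℕ, (∀ t, L ≤ n t) ∧ s = SM M n} bs

/-- Part EXT: for polynomials the relation for large `s` gives the relation for all `s`. -/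
def TaskExtT : Prop := ∀ {r N P : ℕ} (g : Fin r → Fin (P+1)) (v : Fin r → Fin N → ℕ)
  (θ : Fin r → ℝ) (m : Fin (P+1) → ℕ) (B : MvPolynomial (Fin (P+1)) ℂ) (L : ℕ),
  (∀ k, ∃ j, g j = k) →
  NumRelV False g v θ m {s | ∀ k, L ≤ s k} (fun s => eval (fun k => (s k : ℂ)) B) →
  NumRel False g v θ m Set.univ (fun s => eval (fun k => (s k : ℂ)) B)

/-- The sharper relation implies the weaker one. -/
def TaskVW : Prop := ∀ {r N P : ℕ} (loc : Prop) (g : Fin r → Fin (P+1))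
  (v : Fin r → Fin N → ℕ) (θ : Fin r → ℝ) (m : Fin (P+1) → ℕ) (E : Set (Fin (P+1) → ℕ))
  (bs : (Fin (P+1) → ℕ) → ℂ) (β : MvPolynomial (Fin (P+1)) ℂ),
  (∀ s ∈ E, bs s = eval (fun k => (s k : ℂ)) β) →
  NumRelV loc g v θ m E bs → NumRelW loc g v θ m E bs

end Pool.Agent.W423.NT
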