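import Pool.Agent.W423.NT.Defs

set_option autoImplicit false

/-! Project NT, part DEF: the deformation theorem (after helper425's project ND). -/

namespace Pool.Agent.W423.NT

open MvPolynomial Pool.Agent.W423.MG Pool.Agent.W425.ND

section base

variable {d N P : ℕ} {R S : Type} [CommRing R] [CommRing S]

/-- base change -/
def mp (φ : R →+* S) (u : FnQ d N R) : FnQ d N S := fun n e => φ (u n e)

lemma mp_add (φ : R →+* S) (u w : FnQ d N R) : mp φ (u + w) = mp φ u + mp φ w := by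
  funext n e
  show φ (u n e + w n e) = φ (u n e) + φ (w n e)
  rw [map_add]

lemma ev_map (φ : R →+* S) (n : Fin d → ℕ) (e : Fin N →₀ ℕ) (o : Fin d ⊕ Fin N) :
    φ (evQ n e o) = evQ n e o := by
  cases o <;> simp [evQ]

lemma mp_smul (φ : R →+* S) (p : MvPolynomial (Fin d ⊕ Fin N) R) (u : FnQ d N R) :
    mp φ (p • u) = (map φ p) • mp φ u := by
  funext n e
  show φ (eval (evQ n e) p * u n e) = eval (evQ n e) (map φ p) * φ (u n e)
  rw [map_mul, eval_map]
  congr 1
  have : (evQ n e : Fin d ⊕ Fin N → S) = φ ∘ (evQ n e) := by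
    funext o
    simp [ev_map]
  rw [this, ← MvPolynomial.eval₂_id, MvPolynomial.hom_eval₂, RingHom.comp_id]
  rfl

lemma mp_low (φ : R →+* S) (δ : Fin N → ℤ) (u : FnQ d N R) :
    mp φ (lowQ δ u) = lowQ δ (mp φ u) := by
  funext n e
  unfold mp lowQ
  split_ifs with h
  · rw [map_mul, map_natCast]
  · exact map_zero φ

lemma mp_sh (φ : R →+* S) (L : ℕ) (u : FnQ d N R) : mp φ (shQ L u) = shQ L (mp φ u) := rfl

lemma mp_brk (φ : R →+* S) (M : Fin (P+1) → Fin d → ℕ) (G : Fin (P+1) → MvPolynomial (Fin N) R)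
    (p : MvPolynomial (Fin N) R) (μ : Fin (P+1) → ℕ) :
    mp φ (brkQ M G p μ) = brkQ M (fun k => map φ (G k)) (map φ p) μ := by
  funext n e
  unfold mp brkQ
  rw [← coeff_map, map_mul, map_mul, map_natCast, map_prod]
  simp only [map_pow]

end base

section supp

variable {N r P : ℕ} {R : Type} [CommRing R]

/-- all exponents of `p` satisfy `HulC` -/
def SupC (g : Fin r → Fin (P+1)) (v : Fin r → Fin N → ℕ) (μ : Fin (P+1) → ℕ)
    (p : MvPolynomial (Fin N) R) : Prop := ∀ c, coeff c p ≠ 0 → HulC g v μ c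

lemma HulC.add {g : Fin r → Fin (P+1)} {v : Fin r → Fin N → ℕ} {μ μ' : Fin (P+1) → ℕ}
    {c c' : Fin N →₀ ℕ} (h : HulC g v μ c) (h' : HulC g v μ' c') :
    HulC g v (μ + μ') (c + c') := by
  obtain ⟨l, h1, h2, h3⟩ := h
  obtain ⟨l', h1', h2', h3'⟩ := h'
  refine ⟨fun j => l j + l' j, fun j => add_nonneg (h1 j) (h1' j), fun k => ?_, ?_⟩
  · have h4 : gs g (fun j => l j + l' j) k = gs g l k + gs g l' k := by
      unfold gs
      rw [← Finset.sum_add_distrib]
      refine Finset.sum_congr rfl fun j _ => ?_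
      split_ifs <;> simp
    rw [h4, h2, h2', Pi.add_apply]; push_cast; ring
  · intro i
    simp only [add_mul, Finset.sum_add_distrib, h3, h3', Finsupp.add_apply]
    push_cast; ring

lemma HulC.zero {g : Fin r → Fin (P+1)} {v : Fin r → Fin N → ℕ} : HulC g v 0 0 :=
  ⟨fun _ => 0, fun _ => le_rfl, fun k => by simp [gs], by simp⟩

lemma supC_mul {g : Fin r → Fin (P+1)} {v : Fin r → Fin N → ℕ} {μ μ' : Fin (P+1) → ℕ}
    {p q : MvPolynomial (Fin N) R}
    (h : SupC g v μ p) (h' : SupC g v μ' q) : SupC g v (μ + μ') (p * q) := by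
  classical
  intro c hc
  rw [coeff_mul] at hc
  obtain ⟨x, hx, hx2⟩ := Finset.exists_ne_zero_of_sum_ne_zero hc
  have h1 : coeff x.1 p ≠ 0 := fun h0 => hx2 (by rw [h0, zero_mul])
  have h2 : coeff x.2 q ≠ 0 := fun h0 => hx2 (by rw [h0, mul_zero])
  have h3 := HulC.add (h _ h1) (h' _ h2)
  rwa [Finset.HasAntidiagonal.mem_antidiagonal.1 hx] at h3

lemma polyR_coeff (g : Fin r → Fin (P+1)) (v : Fin r → Fin N → ℕ) (a : Fin r → R)
    (k : Fin (P+1)) (c : Fin N →₀ ℕ) :
    coeff c (polyR g v a k) =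
      ∑ j, if g j = k ∧ c = Finsupp.equivFunOnFinite.symm (v j) then a j else 0 := by
  classical
  unfold polyR
  rw [coeff_sum]
  refine Finset.sum_congr rfl fun j _ => ?_
  by_cases hk : g j = k
  · rw [if_pos hk]
    have : (∏ i, X i ^ v j i : MvPolynomial (Fin N) R) =
        monomial (Finsupp.equivFunOnFinite.symm (v j)) 1 := by
      rw [monomial_eq, C_1, one_mul, Finsupp.prod_fintype]
      · simp
      · intro i; simp
    rw [this, coeff_C_mul, coeff_monomial]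
    by_cases h : Finsupp.equivFunOnFinite.symm (v j) = c
    · rw [if_pos h, if_pos ⟨hk, h.symm⟩, mul_one]
    · rw [if_neg h, if_neg (fun h' => h h'.2.symm), mul_zero]
  · rw [if_neg hk, coeff_zero, if_neg (fun h => hk h.1)]

lemma hulC_one (g : Fin r → Fin (P+1)) (v : Fin r → Fin N → ℕ) (j : Fin r) :
    HulC g v (Pi.single (g j) 1) (Finsupp.equivFunOnFinite.symm (v j)) := by
  classical
  refine ⟨fun j' => if j' = j then 1 else 0, fun j' => ?_, fun k => ?_, fun i => by simp⟩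
  · by_cases h : j' = j <;> simp [h]
  · unfold gs
    by_cases hk : g j = k
    · subst hk
      rw [Finset.sum_eq_single j]
      · simp
      · intro b _ hb
        simp [hb]
      · intro h
        exact absurd (Finset.mem_univ _) h
    · rw [Pi.single_eq_of_ne (fun h => hk h.symm)]
      rw [Finset.sum_eq_zero]
      · simp
      · intro j' _
        by_cases h : j' = j
        · subst h
          simp [hk]
        · simp [h]

lemma polyR_supC (g : Fin r → Fin (P+1)) (v : Fin r → Fin N → ℕ) (a : Fin r → R)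
    (k : Fin (P+1)) : SupC g v (Pi.single k 1) (polyR g v a k) := by
  classical
  intro c hc
  rw [polyR_coeff] at hc
  obtain ⟨j, -, hj⟩ := Finset.exists_ne_zero_of_sum_ne_zero hc
  have : g j = k ∧ c = Finsupp.equivFunOnFinite.symm (v j) := by
    by_contra h
    exact hj (if_neg h)
  rw [this.2, ← this.1]
  exact hulC_one g v j

lemma hulC_finite (g : Fin r → Fin (P+1)) (v : Fin r → Fin N → ℕ) (μ : Fin (P+1) → ℕ) :
    {c | HulC g v μ c}.Finite := by
  classical
  let b : Fin N → ℕ := fun i => (∑ k, μ k) * ∑ j, v j i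
  have : {c | HulC g v μ c} ⊆ Set.Iic (Finsupp.equivFunOnFinite.symm b) := by
    rintro c ⟨l, h1, h2, h3⟩
    intro i
    have hs : ∑ j, l j = ((∑ k, μ k : ℕ) : ℝ) := by
      rw [← sum_gs g l, Finset.sum_congr rfl fun k _ => h2 k]
      push_cast
      rfl
    have hl : ∀ j, l j ≤ ((∑ k, μ k : ℕ) : ℝ) := by
      intro j
      rw [← hs]
      exact Finset.single_le_sum (fun j _ => h1 j) (Finset.mem_univ j)
    have h4 : (c i : ℝ) ≤ (((∑ k, μ k) * ∑ j, v j i : ℕ) : ℝ) := by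
      rw [← h3 i, Nat.cast_mul, Nat.cast_sum (f := fun j => v j i), Finset.mul_sum]
      exact Finset.sum_le_sum fun j _ => mul_le_mul_of_nonneg_right (hl j) (Nat.cast_nonneg _)
    have h5 : c i ≤ (∑ k, μ k) * ∑ j, v j i := by exact_mod_cast h4
    simpa [b] using h5
  exact (Set.finite_Iic _).subset this

end supp

section dC

variable {d N r P : ℕ} {k : Type} [Field k]

lemma dC_coeff {σ : Type} (p : MvPolynomial σ (PowerSeries k)) (c : σ →₀ ℕ) :
    coeff c (dC p) = PowerSeries.derivative k (coeff c p) := by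
  classical
  unfold dC
  rw [coeff_sum]
  simp only [coeff_monomial]
  rw [Finset.sum_ite_eq' p.support c]
  split_ifs with h
  · rfl
  · rw [notMem_support_iff] at h
    rw [h, map_zero]

lemma supC_dC {g : Fin r → Fin (P+1)} {v : Fin r → Fin N → ℕ} {μ : Fin (P+1) → ℕ}
    {p : MvPolynomial (Fin N) (PowerSeries k)}
    (h : SupC g v μ p) : SupC g v μ (dC p) := by
  intro c hc
  rw [dC_coeff] at hc
  exact h c fun h0 => hc (by rw [h0, map_zero])

end dC

section thm

variable {d N r P : ℕ}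

/-- abbreviation: power series -/
abbrev RR : Type := PowerSeries ℂ

/-- abbreviation: the ring of operators -/
noncomputable abbrev BB (d N : ℕ) : Type := MvPolynomial (Fin d ⊕ Fin N) RR

/-- additive, semilinear, commuting with `nabQ` -/
def Good (T : FnQ d N RR → FnQ d N RR) : Prop :=
  (∀ u w, T (u + w) = T u + T w) ∧
  (∃ τ : BB d N → BB d N, ∀ (q : BB d N) u, T (q • u) = τ q • T u) ∧
  (∀ q : BB d N, ∀ u, ∃ q' : BB d N, q • T u = T (q' • u)) ∧
  (∀ u, nabQ (T u) = T (nabQ u))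

/-- The span of the images of `G` under the operators in `T`. -/
noncomputable def Sp (T : Set (FnQ d N RR → FnQ d N RR)) (G : Set (FnQ d N RR)) : Submodule (BB d N) (FnQ d N RR) :=
  Submodule.span (BB d N) {y | ∃ t ∈ T, ∃ g ∈ G, y = t g}

lemma Good.zero {T : FnQ d N RR → FnQ d N RR} (h : Good T) : T 0 = 0 := by
  have := h.1 0 0
  rw [add_zero] at this
  exact left_eq_add.1 this

lemma Good.span {T : FnQ d N RR → FnQ d N RR} (h : Good T) (𝒯 : Set (FnQ d N RR → FnQ d N RR))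
    (hT : T ∈ 𝒯) (G : Set (FnQ d N RR)) (x : FnQ d N RR) (hx : x ∈ Submodule.span (BB d N) G) :
    T x ∈ Sp 𝒯 G := by
  induction hx using Submodule.span_induction with
  | mem x hx => exact Submodule.subset_span ⟨T, hT, x, hx, rfl⟩
  | zero => rw [h.zero]; exact zero_mem _
  | add x y _ _ hx hy => rw [h.1]; exact add_mem hx hy
  | smul q x _ hx =>
    obtain ⟨τ, hτ⟩ := h.2.1
    rw [hτ]
    exact Submodule.smul_mem _ _ hx

lemma Sp.nab_mem (hadd : ∀ u w : FnQ d N RR, nabQ (u + w) = nabQ u + nabQ w)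
    (hsm : ∀ (p : BB d N) (u : FnQ d N RR), nabQ (p • u) = p • nabQ u + dC p • u)
    (𝒯 : Set (FnQ d N RR → FnQ d N RR)) (h𝒯 : ∀ T ∈ 𝒯, Good T) (G : Set (FnQ d N RR))
    (hG : ∀ x ∈ G, nabQ x ∈ Submodule.span (BB d N) G) (x : FnQ d N RR) (hx : x ∈ Sp 𝒯 G) :
    nabQ x ∈ Sp 𝒯 G := by
  have h0 : nabQ (0 : FnQ d N RR) = 0 := by
    have := hadd 0 0
    rw [add_zero] at this
    exact left_eq_add.1 this
  unfold Sp at hx
  induction hx using Submodule.span_induction with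
  | mem x hx =>
    obtain ⟨T, hT, g, hg, rfl⟩ := hx
    rw [(h𝒯 T hT).2.2.2]
    exact (h𝒯 T hT).span 𝒯 hT G _ (hG g hg)
  | zero => rw [h0]; exact zero_mem _
  | add x y _ _ hx hy => rw [hadd]; exact add_mem hx hy
  | smul q x hx' hx =>
    rw [hsm]
    exact add_mem (Submodule.smul_mem _ _ hx) (Submodule.smul_mem _ _ hx')

lemma Sp.fg (𝒯 : Set (FnQ d N RR → FnQ d N RR)) (h𝒯 : 𝒯.Finite) (G : Set (FnQ d N RR))
    (hG : G.Finite) : (Sp 𝒯 G).FG := by
  unfold Sp
  apply Submodule.fg_span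
  have : {y | ∃ t ∈ 𝒯, ∃ g ∈ G, y = t g} = Set.image2 (fun t g => t g) 𝒯 G := by
    ext y
    simp only [Set.mem_ofPred_eq, Set.mem_image2]
    constructor
    · rintro ⟨t, ht, g, hg, rfl⟩; exact ⟨t, ht, g, hg, rfl⟩
    · rintro ⟨t, ht, g, hg, rfl⟩; exact ⟨t, ht, g, hg, rfl⟩
  rw [this]
  exact h𝒯.image2 _ hG

/-- elements of `Sp` are finite sums -/
lemma Sp.rep (𝒯 : Set (FnQ d N RR → FnQ d N RR)) (h𝒯 : ∀ T ∈ 𝒯, Good T) (G : Set (FnQ d N RR))
    (x : FnQ d N RR) (hx : x ∈ Sp 𝒯 G) :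
    ∃ (n : ℕ) (T : Fin n → FnQ d N RR → FnQ d N RR) (g : Fin n → FnQ d N RR) (q : Fin n → BB d N),
      (∀ k, T k ∈ 𝒯) ∧ (∀ k, g k ∈ G) ∧ x = ∑ k, T k (q k • g k) := by
  unfold Sp at hx
  rw [Submodule.mem_span_set'] at hx
  obtain ⟨n, f, g, rfl⟩ := hx
  have hg : ∀ k, ∃ t ∈ 𝒯, ∃ y ∈ G, (g k : FnQ d N RR) = t y := fun k => (g k).2
  choose t ht y hy hty using hg
  have hq : ∀ k, ∃ q' : BB d N, f k • t k (y k) = t k (q' • y k) := fun k =>
    (h𝒯 _ (ht k)).2.2.1 _ _
  choose q' hq' using hq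
  refine ⟨n, t, y, q', ht, hy, ?_⟩
  refine Finset.sum_congr rfl fun k _ => ?_
  rw [← hq', hty]

/-- the generators -/
def gens (M : Fin (P+1) → Fin d → ℕ) (g : Fin r → Fin (P+1)) (v : Fin r → Fin N → ℕ)
    (G : Fin (P+1) → MvPolynomial (Fin N) RR) (K : ℕ) : Set (FnQ d N RR) :=
  {u | ∃ (μ : Fin (P+1) → ℕ) (c : Fin N →₀ ℕ), ∑ k, μ k ≤ K ∧ HulC g v μ c ∧
    u = brkQ M G (monomial c 1) μ}

lemma gens_finite (M : Fin (P+1) → Fin d → ℕ) (g : Fin r → Fin (P+1)) (v : Fin r → Fin N → ℕ)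
    (G : Fin (P+1) → MvPolynomial (Fin N) RR) (K : ℕ) :
    (gens M g v G K).Finite := by
  have : gens M g v G K ⊆ ⋃ μ ∈ Set.Iic (fun _ : Fin (P+1) => K),
      (fun c => brkQ M G (monomial c 1) μ) '' {c | HulC g v μ c} := by
    rintro u ⟨μ, c, hm, hc, rfl⟩
    simp only [Set.mem_iUnion, Set.mem_image, Set.mem_Iic]
    refine ⟨μ, fun k => ?_, c, hc, rfl⟩
    exact (Finset.single_le_sum (fun _ _ => Nat.zero_le _) (Finset.mem_univ k)).trans hm
  exact ((Set.finite_Iic _).biUnion fun m _ => (hulC_finite g v m).image _).subset this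

lemma gens_nab (hBRK : TaskBRKQ) (hGEN : TaskGENQ) (M : Fin (P+1) → Fin d → ℕ)
    (g : Fin r → Fin (P+1)) (v : Fin r → Fin N → ℕ) (a' : Fin r → RR) (K : ℕ)
    (hgen : Gen (cay g v) (spa (cay g v) a') K) (x : FnQ d N RR)
    (hx : x ∈ gens M g v (polyR g v a') K) :
    nabQ x ∈ Submodule.span (BB d N) (gens M g v (polyR g v a') K) := by
  obtain ⟨μ, c, hm, hc, rfl⟩ := hx
  rw [hBRK.2.2.2.2.2]
  have h1 : SupC g v μ (monomial c (1 : RR)) := by
    classical
    intro c' hc'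
    rw [coeff_monomial] at hc'
    by_cases h : c = c'
    · rwa [← h]
    · rw [if_neg h] at hc'; exact absurd rfl hc'
  exact add_mem (hGEN hBRK d r N P RR M g v a' K hgen μ _ (supC_dC h1))
    (Submodule.sum_mem _ fun l _ => hGEN hBRK d r N P RR M g v a' K hgen _ _
      (supC_mul h1 (supC_dC (polyR_supC g v a' l))))

lemma good_low_sh (hALG : TaskALGQ) (δ : Fin N → ℤ) (L : ℕ) :
    Good (fun u : FnQ d N RR => lowQ δ (shQ L u)) := by
  obtain ⟨h1, h2, h3, h4, h5, h6, h7, h8, h9, h10, h11⟩ := hALG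
  refine ⟨fun u w => ?_, ⟨fun q => trQ δ (shAQ L q), fun q u => ?_⟩, fun q u => ?_, fun u => ?_⟩
  · show lowQ δ (shQ L (u + w)) = lowQ δ (shQ L u) + lowQ δ (shQ L w)
    rw [h4, h1]
  · show lowQ δ (shQ L (q • u)) = _ • lowQ δ (shQ L u)
    rw [h6, h2]
  · obtain ⟨q', -, hq'⟩ := h7 d N RR L (trQ (fun i => -δ i) q) u
    refine ⟨q', ?_⟩
    show q • lowQ δ (shQ L u) = lowQ δ (shQ L (q' • u))
    rw [h3, hq']
  · show nabQ (lowQ δ (shQ L u)) = lowQ δ (shQ L (nabQ u))
    rw [h10, h11]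

/-- the operator `lowQ δ ∘ shQ L` -/
noncomputable def op (a : (Fin N → ℤ) × ℕ) (u : FnQ d N RR) : FnQ d N RR := lowQ a.1 (shQ a.2 u)

/-- the span of the images under the operators `op a`, `a ∈ A` -/
noncomputable def SA (A : Set ((Fin N → ℤ) × ℕ)) (G : Set (FnQ d N RR)) :
    Submodule (BB d N) (FnQ d N RR) := Sp (op '' A) G

lemma good_op (hALG : TaskALGQ) (a : (Fin N → ℤ) × ℕ) : Good (d := d) (op a) := good_low_sh hALG a.1 a.2

lemma SA.good (hALG : TaskALGQ) (A : Set ((Fin N → ℤ) × ℕ)) : ∀ T ∈ (op (d := d)) '' A, Good T := by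
  rintro T ⟨a, -, rfl⟩
  exact good_op hALG a

lemma SA.mono {A A' : Set ((Fin N → ℤ) × ℕ)} (h : A ⊆ A') (G : Set (FnQ d N RR)) :
    SA A G ≤ SA A' G := by
  apply Submodule.span_mono
  rintro y ⟨t, ⟨a, ha, rfl⟩, g, hg, rfl⟩
  exact ⟨_, ⟨a, h ha, rfl⟩, g, hg, rfl⟩

lemma SA.union (A A' : Set ((Fin N → ℤ) × ℕ)) (G : Set (FnQ d N RR)) :
    SA (A ∪ A') G = SA A G ⊔ SA A' G := by
  unfold SA Sp
  rw [← Submodule.span_union]
  congr 1
  ext y
  simp only [Set.mem_ofPred_eq, Set.mem_union]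
  constructor
  · rintro ⟨t, ⟨a, ha | ha, rfl⟩, g, hg, rfl⟩
    · exact Or.inl ⟨_, ⟨a, ha, rfl⟩, g, hg, rfl⟩
    · exact Or.inr ⟨_, ⟨a, ha, rfl⟩, g, hg, rfl⟩
  · rintro (⟨t, ⟨a, ha, rfl⟩, g, hg, rfl⟩ | ⟨t, ⟨a, ha, rfl⟩, g, hg, rfl⟩)
    · exact ⟨_, ⟨a, Or.inl ha, rfl⟩, g, hg, rfl⟩
    · exact ⟨_, ⟨a, Or.inr ha, rfl⟩, g, hg, rfl⟩

lemma SA.mem {A : Set ((Fin N → ℤ) × ℕ)} {G : Set (FnQ d N RR)} {a : (Fin N → ℤ) × ℕ}
    {g : FnQ d N RR} (ha : a ∈ A) (hg : g ∈ G) : lowQ a.1 (shQ a.2 g) ∈ SA A G :=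
  Submodule.subset_span ⟨_, ⟨a, ha, rfl⟩, g, hg, rfl⟩

lemma low_zero {R : Type} [CommRing R] (u : FnQ d N R) : lowQ 0 u = u := by
  funext s e
  unfold lowQ tr
  rw [if_pos (by intro i; simp)]
  simp only [Pi.zero_apply, add_zero, Int.toNat_natCast, Int.toNat_zero, Nat.descFactorial_zero,
    Finset.prod_const_one, Nat.cast_one, one_mul]
  congr 1
  ext i
  simp

lemma sh_zero {R : Type} (u : FnQ d N R) : shQ 0 u = u := rfl

lemma sh_add {R : Type} (L j : ℕ) (u : FnQ d N R) : shQ (L + j) u = shQ j (shQ L u) := by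
  funext s e
  show u (s + (L + j)) e = u (s + j + L) e
  rw [show s + (L + j) = s + j + L by ring]

lemma low_sum {R ι : Type} [CommRing R] (hALG : TaskALGQ) (δ : Fin N → ℤ) (S : Finset ι)
    (u : ι → FnQ d N R) : lowQ δ (∑ k ∈ S, u k) = ∑ k ∈ S, lowQ δ (u k) := by
  classical
  induction S using Finset.induction_on with
  | empty =>
    rw [Finset.sum_empty, Finset.sum_empty]
    have := hALG.1 d N R δ 0 0
    rw [add_zero] at this
    exact left_eq_add.1 this
  | insert k S hk ih => rw [Finset.sum_insert hk, Finset.sum_insert hk, hALG.1, ih]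

lemma sh_sum {R ι : Type} [CommRing R] (hALG : TaskALGQ) (L : ℕ) (S : Finset ι)
    (u : ι → FnQ d N R) : shQ L (∑ k ∈ S, u k) = ∑ k ∈ S, shQ L (u k) := by
  classical
  induction S using Finset.induction_on with
  | empty =>
    rw [Finset.sum_empty, Finset.sum_empty]
    have := hALG.2.2.2.1 d N R L 0 0
    rw [add_zero] at this
    exact left_eq_add.1 this
  | insert k S hk ih => rw [Finset.sum_insert hk, Finset.sum_insert hk, hALG.2.2.2.1, ih]

lemma mp_sum {R S' ι : Type} [CommRing R] [CommRing S'] (φ : R →+* S') (S : Finset ι)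
    (u : ι → FnQ d N R) : mp φ (∑ k ∈ S, u k) = ∑ k ∈ S, mp φ (u k) := by
  classical
  induction S using Finset.induction_on with
  | empty =>
    rw [Finset.sum_empty, Finset.sum_empty]
    funext s e
    exact map_zero φ
  | insert k S hk ih => rw [Finset.sum_insert hk, Finset.sum_insert hk, mp_add, ih]

lemma isRep_sum {R ι : Type} [CommRing R] (hR1 : TaskREP1Q) (M : Fin (P+1) → Fin d → ℕ)
    (G : Fin (P+1) → MvPolynomial (Fin N) R)
    (S : Finset ι) (u : ι → FnQ d N R) (h : ∀ k, IsRepQ M G (u k)) :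
    IsRepQ M G (∑ k ∈ S, u k) := by
  classical
  induction S using Finset.induction_on with
  | empty =>
    rw [Finset.sum_empty]
    have := (hR1 d N P R M G).2.2.1 0 _ ((hR1 d N P R M G).1 0 0)
    rwa [zero_smul] at this
  | insert k S hk ih =>
    rw [Finset.sum_insert hk]
    exact (hR1 d N P R M G).2.1 _ _ (h k) ih

lemma gen_zero_mem (M : Fin (P+1) → Fin d → ℕ) (g : Fin r → Fin (P+1)) (v : Fin r → Fin N → ℕ)
    (G : Fin (P+1) → MvPolynomial (Fin N) RR) (K : ℕ) :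
    brkQ M G (monomial 0 1) 0 ∈ gens M g v G K :=
  ⟨0, 0, by simp, HulC.zero, rfl⟩

lemma brk_zero_mem (hBRK : TaskBRKQ) (M : Fin (P+1) → Fin d → ℕ) (g : Fin r → Fin (P+1))
    (v : Fin r → Fin N → ℕ) (G : Fin (P+1) → MvPolynomial (Fin N) RR)
    (K : ℕ) (p : MvPolynomial (Fin N) RR) :
    brkQ M G p 0 ∈ SA ((fun c : Fin N →₀ ℕ => ((fun i => -(c i : ℤ)), 0)) '' (p.support : Set _))
      (gens M g v G K) := by
  classical
  obtain ⟨hA, hC, -, -, hM, -⟩ := hBRK
  have h0 : brkQ M G (0 : MvPolynomial (Fin N) RR) 0 = 0 := by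
    have := hA d N P RR M G 0 0 0
    rw [add_zero] at this
    exact left_eq_add.1 this
  have hsum : ∀ S : Finset (Fin N →₀ ℕ), ∀ q : (Fin N →₀ ℕ) → RR,
      brkQ M G (∑ c ∈ S, monomial c (q c)) 0 ∈
        SA ((fun c : Fin N →₀ ℕ => ((fun i => -(c i : ℤ)), 0)) '' (S : Set _))
          (gens M g v G K) := by
    intro S
    induction S using Finset.induction_on with
    | empty => intro q; rw [Finset.sum_empty, h0]; exact zero_mem _
    | insert c S hc ih =>
      intro q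
      rw [Finset.sum_insert hc, hA]
      refine add_mem ?_ (SA.mono (Set.image_mono (by simp)) _ (ih q))
      have : (monomial c (q c) : MvPolynomial (Fin N) RR) = C (q c) * monomial c 1 := by
        rw [C_mul_monomial, mul_one]
      rw [this, hC]
      apply Submodule.smul_mem
      have h1 := hM d N P RR M G (monomial 0 1) 0 c
      rw [monomial_mul, add_zero, mul_one] at h1
      rw [← h1]
      have h2 : ((fun i => -(c i : ℤ)), 0) ∈ (fun c : Fin N →₀ ℕ => ((fun i => -(c i : ℤ)), 0)) ''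
          ((insert c S : Finset (Fin N →₀ ℕ)) : Set (Fin N →₀ ℕ)) :=
        Set.mem_image_of_mem _ (Finset.mem_coe.2 (Finset.mem_insert_self c S))
      have h3 := SA.mem h2 (gen_zero_mem M g v G K)
      exact h3
  have := hsum p.support fun c => coeff c p
  rwa [← p.as_sum] at this

lemma SM_add (M : Fin (P+1) → Fin d → ℕ) (n : Fin d → ℕ) (j : ℕ) (k : Fin (P+1)) :
    SM M (fun t => n t + j) k = SM M n k + j * rowM M k := by
  unfold SM rowM
  rw [Finset.mul_sum, ← Finset.sum_add_distrib]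
  refine Finset.sum_congr rfl fun t _ => ?_
  ring

lemma sh_brk (M : Fin (P+1) → Fin d → ℕ) (G : Fin (P+1) → MvPolynomial (Fin N) RR) (j : ℕ) :
    shQ j (brkQ M G 1 0) = brkQ M G (∏ k, G k ^ (j * rowM M k)) 0 := by
  funext n e
  have h : ∀ (n : Fin d → ℕ), ((∏ k, (SM M n k).descFactorial ((0 : Fin (P+1) → ℕ) k) : ℕ) :
      MvPolynomial (Fin N) RR) = 1 := by
    intro n
    simp
  show coeff e (1 * ((∏ k, (SM M (fun t => n t + j) k).descFactorial
      ((0 : Fin (P+1) → ℕ) k) : ℕ) : MvPolynomial (Fin N) RR) *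
      ∏ k, G k ^ (SM M (fun t => n t + j) k - (0 : Fin (P+1) → ℕ) k)) =
    coeff e ((∏ k, G k ^ (j * rowM M k)) * ((∏ k, (SM M n k).descFactorial
      ((0 : Fin (P+1) → ℕ) k) : ℕ) : MvPolynomial (Fin N) RR) *
      ∏ k, G k ^ (SM M n k - (0 : Fin (P+1) → ℕ) k))
  rw [h, h, one_mul, one_mul, mul_one, ← Finset.prod_mul_distrib]
  congr 1
  refine Finset.prod_congr rfl fun k _ => ?_
  rw [Pi.zero_apply, Nat.sub_zero, Nat.sub_zero, SM_add, ← pow_add, add_comm]

lemma map_shA {R S : Type} [CommRing R] [CommRing S] (φ : R →+* S) (L : ℕ)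
    (p : MvPolynomial (Fin d ⊕ Fin N) R) : map φ (shAQ L p) = shAQ L (map φ p) := by
  induction p using MvPolynomial.induction_on with
  | C a => simp [shAQ]
  | add p q hp hq => simp only [map_add, hp, hq]
  | mul_X p o hp =>
    simp only [map_mul, hp, map_X]
    congr 1
    cases o <;> simp [shAQ]

lemma map_Bop (B : MvPolynomial (Fin d) ℂ) : map (PowerSeries.C : ℂ →+* PowerSeries ℂ)
    (BopQ B : MvPolynomial (Fin d ⊕ Fin N) ℂ) = (BopQ B : MvPolynomial (Fin d ⊕ Fin N) RR) := by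
  unfold BopQ
  induction B using MvPolynomial.induction_on with
  | C a =>
    rw [aeval_C, aeval_C]
    show map PowerSeries.C (C a) = algebraMap ℂ (MvPolynomial (Fin d ⊕ Fin N) RR) a
    rw [map_C]
    rfl
  | add p q hp hq => rw [map_add, map_add, map_add, hp, hq]
  | mul_X p t hp => rw [map_mul, map_mul, map_mul, hp, aeval_X, aeval_X, map_X]

lemma map_cc {σ : Type} (p : MvPolynomial σ ℂ) :
    map (PowerSeries.constantCoeff : PowerSeries ℂ →+* ℂ) (map PowerSeries.C p) = p := by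
  rw [map_map, show (PowerSeries.constantCoeff : PowerSeries ℂ →+* ℂ).comp PowerSeries.C =
    RingHom.id ℂ from by ext x; simp]
  exact map_id p

end thm

end Pool.Agent.W423.NT
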