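import Pool.Agent.W423.NT.Def1

set_option autoImplicit false

/-! Project ND, part DEF: the deformation theorem, one generator. -/

namespace Pool.Agent.W423.NT

open MvPolynomial Pool.Agent.W423.MG
open Pool.Agent.W425.ND (Gen spa dC tr)

section thm

variable {d N r P : ℕ}

/-- the functional equation of the special member, for one generator -/
def SpecAt (loc : Prop) (M : Fin (P+1) → Fin d → ℕ) (G : Fin (P+1) → MvPolynomial (Fin N) ℂ)
    (K : ℕ) (B : MvPolynomial (Fin d) ℂ) (c : Fin N →₀ ℕ) (μ : Fin (P+1) → ℕ) : Prop :=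
  ∃ (n1 n0 : ℕ) (δ : Fin n1 → Fin N → ℤ) (Q : Fin n1 → MvPolynomial (Fin d ⊕ Fin N) ℂ)
    (δ0 : Fin n0 → Fin N → ℤ) (α : Fin n0 → ℂ),
    (∀ k, loc ∧ (∀ i, δ0 k i ≤ 0) ∧ δ0 k ≠ 0) ∧
    shQ K ((BopQ B : MvPolynomial (Fin d ⊕ Fin N) ℂ) • brkQ M G (monomial c 1) μ) =
      shQ K (∑ k, lowQ (δ k) (Q k • shQ 1 (brkQ M G 1 0)) +
        ∑ k, lowQ (δ0 k) ((C (α k) * BopQ B :
          MvPolynomial (Fin d ⊕ Fin N) ℂ) • brkQ M G (monomial c 1) μ))

lemma one_mem (M : Fin (P+1) → Fin d → ℕ) (g : Fin r → Fin (P+1)) (v : Fin r → Fin N → ℕ)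
    (G : Fin (P+1) → MvPolynomial (Fin N) RR) (K : ℕ) :
    brkQ M G 1 0 ∈ gens M g v G K := ⟨0, 0, by simp, HulC.zero, rfl⟩

lemma smul_X_apply (z : FnQ d N RR) (n : Fin d → ℕ) (e : Fin N →₀ ℕ) :
    ((C PowerSeries.X : BB d N) • z) n e = PowerSeries.X * z n e := by
  rw [smulQ_apply, eval_C]

lemma step (hALG : TaskALGQ) (hBRK : TaskBRKQ) (hR1 : TaskREP1Q) (hR2 : TaskREP2Q)
    (loc : Prop) (M : Fin (P+1) → Fin d → ℕ) (hM : ∀ l, 1 ≤ rowM M l)
    (g : Fin r → Fin (P+1)) (v : Fin r → Fin N → ℕ)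
    (G' : Fin (P+1) → MvPolynomial (Fin N) RR)
    (hf : ∀ l, map PowerSeries.constantCoeff (G' l) ≠ 0) (K K1 : ℕ) (B : MvPolynomial (Fin d) ℂ)
    (μ : Fin (P+1) → ℕ) (c : Fin N →₀ ℕ) (hm : ∑ k, μ k ≤ K) (hc : HulC g v μ c)
    (hs : SpecAt loc M (fun l => map PowerSeries.constantCoeff (G' l)) K1 B c μ) :
    ∃ (D D0 : Set (Fin N → ℤ)) (L0 : ℕ), D.Finite ∧ D0.Finite ∧
      (∀ δ ∈ D0, loc ∧ (∀ i, δ i ≤ 0) ∧ δ ≠ 0) ∧
      ∀ L, L0 ≤ L → ∃ E : Set (Fin N → ℤ), E.Finite ∧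
        ∃ w ∈ SA ((D ×ˢ {L + 1}) ∪ (D0 ×ˢ {L})) (gens M g v G' K),
        ∃ z ∈ SA (E ×ˢ {0}) (gens M g v G' K),
        shAQ L (BopQ B : BB d N) • shQ L (brkQ M G' (monomial c 1) μ) =
          w + (C PowerSeries.X : BB d N) • z := by
  classical
  obtain ⟨n, n0, δ, Q1, δ0, α, hδ0, heq⟩ := hs
  set x := brkQ M G' (monomial c 1) μ with hx
  have hxG : x ∈ gens M g v G' K := ⟨μ, c, hm, hc, rfl⟩
  set P' : Fin n → BB d N := fun k => map PowerSeries.C (Q1 k) with hP'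
  set Q : Fin n0 → BB d N := fun k => map PowerSeries.C (C (α k) * BopQ B) with hQ
  set S1 : FnQ d N RR := ∑ k, lowQ (δ k) (P' k • shQ 1 (brkQ M G' 1 0)) with hS1
  set S2 : FnQ d N RR := ∑ k, lowQ (δ0 k) (Q k • x) with hS2
  set w : FnQ d N RR := (BopQ B : BB d N) • x + (-1 : BB d N) • (S1 + S2) with hw
  -- representations
  obtain ⟨r1, r2, r3, r4, r5⟩ := hR1 d N P RR M G'
  have hwrep : IsRepQ M G' (shQ K1 w) := by
    refine r5 _ _ (r2 _ _ (r3 _ _ (r1 _ _)) (r3 _ _ (r2 _ _ ?_ ?_)))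
    · exact isRep_sum hR1 M G' _ _ fun k => r4 _ _ (r3 _ _ (r5 _ _ (r1 _ _)))
    · exact isRep_sum hR1 M G' _ _ fun k => r4 _ _ (r3 _ _ (r1 _ _))
  -- vanishing
  have hmono : map (PowerSeries.constantCoeff : RR →+* ℂ) (monomial c (1 : RR)) =
      (monomial c (1 : ℂ) : MvPolynomial (Fin N) ℂ) := by
    rw [map_monomial, map_one (PowerSeries.constantCoeff : RR →+* ℂ)]
  obtain ⟨a1, a2, a3, a4, a5, a6, -⟩ := id hALG
  have hw0 : mp (PowerSeries.constantCoeff : RR →+* ℂ) (shQ K1 w) = 0 := by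
    have e1 : ∀ k, mp (PowerSeries.constantCoeff : RR →+* ℂ)
        (lowQ (δ k) (P' k • shQ 1 (brkQ M G' 1 0))) =
        lowQ (δ k) (Q1 k • shQ 1 (brkQ M (fun l => map PowerSeries.constantCoeff (G' l)) 1 0)) := by
      intro k
      rw [mp_low, mp_smul, hP', map_cc, mp_sh, mp_brk,
        map_one (map (PowerSeries.constantCoeff : RR →+* ℂ))]
    have e2 : ∀ k, mp (PowerSeries.constantCoeff : RR →+* ℂ)
        (lowQ (δ0 k) (Q k • brkQ M G' (monomial c 1) μ)) =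
        lowQ (δ0 k) ((C (α k) * BopQ B : MvPolynomial (Fin d ⊕ Fin N) ℂ) •
          brkQ M (fun l => map PowerSeries.constantCoeff (G' l)) (monomial c 1) μ) := by
      intro k
      rw [mp_low, mp_smul, hQ, map_cc, mp_brk, hmono]
    have e3 : mp (PowerSeries.constantCoeff : RR →+* ℂ) w =
        (BopQ B : MvPolynomial (Fin d ⊕ Fin N) ℂ) •
          brkQ M (fun l => map PowerSeries.constantCoeff (G' l)) (monomial c 1) μ +
        (-1 : MvPolynomial (Fin d ⊕ Fin N) ℂ) •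
        (∑ k, lowQ (δ k) (Q1 k • shQ 1
            (brkQ M (fun l => map PowerSeries.constantCoeff (G' l)) 1 0)) +
          ∑ k, lowQ (δ0 k) ((C (α k) * BopQ B : MvPolynomial (Fin d ⊕ Fin N) ℂ) •
            brkQ M (fun l => map PowerSeries.constantCoeff (G' l)) (monomial c 1) μ)) := by
      rw [hw, mp_add, mp_smul, mp_smul, mp_add, hS1, hS2, mp_sum, mp_sum, ← map_Bop, map_cc, hx,
        mp_brk, hmono]
      simp only [e1, e2]
      rw [map_neg, map_one (map (PowerSeries.constantCoeff : RR →+* ℂ))]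
    rw [mp_sh, e3, a4, heq, neg_smul, one_smul]
    have e4 : ∀ u : FnQ d N ℂ, shQ K1 u + shQ K1 (-u) = 0 := by
      intro u
      rw [← a4, add_neg_cancel]
      rfl
    exact e4 _
  obtain ⟨z, hz, L0, n', c', P'', hsh⟩ := hR2 d N P ℂ M G' hM hf (shQ K1 w) hwrep fun n e =>
    congrFun (congrFun hw0 n) e
  have hz' : shQ K1 w = (C PowerSeries.X : BB d N) • z := by
    funext n e
    rw [smul_X_apply, hz]
  refine ⟨Set.range δ, Set.range δ0, K1 + L0, Set.finite_range _, Set.finite_range _, ?_, ?_⟩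
  · rintro _ ⟨k, rfl⟩
    exact hδ0 k
  · intro L hL
    obtain ⟨j, rfl⟩ := Nat.exists_eq_add_of_le hL
    set E : Set (Fin N → ℤ) := ⋃ k : Fin n', (fun c : Fin N →₀ ℕ => (fun i => -(c i : ℤ))) ''
      ((monomial (c' k) 1 * ∏ l, G' l ^ (j * rowM M l) :
        MvPolynomial (Fin N) RR).support : Set (Fin N →₀ ℕ)) with hE
    refine ⟨E, ?_, shQ (K1 + L0 + j) (S1 + S2), ?_, shQ (L0 + j) z, ?_, ?_⟩
    · exact Set.finite_iUnion fun k => (Finset.finite_toSet _).image _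
    · rw [a4, hS1, hS2, sh_sum hALG, sh_sum hALG, SA.union]
      refine Submodule.add_mem_sup (sum_mem fun k _ => ?_) (sum_mem fun k _ => ?_)
      · rw [a5, a6, a2]
        apply Submodule.smul_mem
        have h1 : shQ (K1 + L0 + j) (shQ 1 (brkQ M G' 1 0)) =
            shQ (K1 + L0 + j + 1) (brkQ M G' 1 0) := by
          rw [Nat.add_comm (K1 + L0 + j) 1]
          exact (sh_add 1 (K1 + L0 + j) _).symm
        rw [h1]
        exact SA.mem (a := (δ k, K1 + L0 + j + 1)) ⟨⟨k, rfl⟩, rfl⟩ (one_mem M g v G' K)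
      · rw [a5, a6, a2]
        apply Submodule.smul_mem
        exact SA.mem (a := (δ0 k, K1 + L0 + j)) ⟨⟨k, rfl⟩, rfl⟩ hxG
    · rw [sh_add L0 j z, hsh, sh_sum hALG]
      refine sum_mem fun k _ => ?_
      rw [a5, a6, a2, sh_brk]
      apply Submodule.smul_mem
      rw [hBRK.2.2.2.2.1]
      refine SA.mono ?_ _ (brk_zero_mem hBRK M g v G' K _)
      rintro _ ⟨c'', hc'', rfl⟩
      exact ⟨Set.mem_iUnion.2 ⟨k, c'', hc'', rfl⟩, rfl⟩
    · have h1 : (BopQ B : BB d N) • x = (S1 + S2) + w := by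
        rw [hw, neg_smul, one_smul]; abel
      have h2 : shQ (K1 + L0 + j) w = (C PowerSeries.X : BB d N) • shQ (L0 + j) z := by
        rw [Nat.add_assoc, sh_add K1 (L0 + j) w, hz']
        funext n e
        rw [smul_X_apply]
        show ((C PowerSeries.X : BB d N) • z) (fun t => n t + (L0 + j)) e = _
        rw [smul_X_apply]
        rfl
      rw [← a6, h1, a4, h2]

end thm

end Pool.Agent.W423.NT
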