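import Pool.Agent.W423.NT.Def2

set_option autoImplicit false

/-! Project ND, part DEF: the deformation theorem. -/

namespace Pool.Agent.W423.NT

open MvPolynomial Pool.Agent.W423.MG
open Pool.Agent.W425.ND (Gen spa dC tr TaskCN)

variable {d N r P : ℕ}

lemma eval_Bop {R : Type} [CommRing R] [Algebra ℂ R] (B : MvPolynomial (Fin d) ℂ)
    (n : Fin d → ℕ)
    (e : Fin N →₀ ℕ) : eval (evQ n e) (BopQ B : MvPolynomial (Fin d ⊕ Fin N) R) =
      algebraMap ℂ R (eval (fun t => (n t : ℂ)) B) := by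
  unfold BopQ
  induction B using MvPolynomial.induction_on with
  | C a =>
    rw [aeval_C, eval_C]
    show eval (evQ n e) (C (algebraMap ℂ R a)) = _
    rw [eval_C]
  | add p q hp hq => simp only [map_add, hp, hq]
  | mul_X p t hp =>
    rw [map_mul, map_mul, hp, aeval_X, eval_X, map_mul, map_mul, eval_X, map_natCast]
    rfl

theorem def_of (hCN : TaskCN) (hALG : TaskALGQ) (hBRK : TaskBRKQ) (hGEN : TaskGENQ)
    (hR1 : TaskREP1Q) (hR2 : TaskREP2Q) (loc : Prop) (M : Fin (P+1) → Fin d → ℕ)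
    (hM : ∀ l, 1 ≤ rowM M l) (g : Fin r → Fin (P+1)) (v : Fin r → Fin N → ℕ)
    (f' : Fin (P+1) → MvPolynomial (Fin N) RR)
    (a' : Fin r → RR) (hf' : f' = polyR g v a')
    (hf : ∀ l, map PowerSeries.constantCoeff (f' l) ≠ 0) (K K1 : ℕ)
    (hgen : Gen (cay g v) (spa (cay g v) a') K) (B : MvPolynomial (Fin d) ℂ)
    (hspec : ∀ (μ : Fin (P+1) → ℕ) (c : Fin N →₀ ℕ), ∑ k, μ k ≤ K → HulC g v μ c →
      SpecAt loc M (fun l => map PowerSeries.constantCoeff (f' l)) K1 B c μ) :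
    RelQ loc M g v f' (1 : RR) B := by
  classical
  -- choose the data for every generator
  have hst := fun μ c hm hc => step hALG hBRK hR1 hR2 loc M hM g v f' hf K K1 B μ c hm hc
    (hspec μ c hm hc)
  set G := gens M g v f' K with hG
  have hst' : ∀ g : G, ∃ (D D0 : Set (Fin N → ℤ)) (L0 : ℕ), D.Finite ∧ D0.Finite ∧
      (∀ δ ∈ D0, loc ∧ (∀ i, δ i ≤ 0) ∧ δ ≠ 0) ∧
      ∀ L, L0 ≤ L → ∃ E : Set (Fin N → ℤ), E.Finite ∧
        ∃ w ∈ SA ((D ×ˢ {L + 1}) ∪ (D0 ×ˢ {L})) G,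
        ∃ z ∈ SA (E ×ˢ {0}) G,
        shAQ L (BopQ B : BB d N) • shQ L (g : FnQ d N RR) = w + (C PowerSeries.X : BB d N) • z := by
    rintro ⟨g, m, c, hm, hc, rfl⟩
    exact hst m c hm hc
  choose D D0 L0 hDf hD0f hD0 hL using hst'
  have hGf : Finite G := (gens_finite M g v f' K).to_subtype
  obtain ⟨L, hLmax⟩ : ∃ L, ∀ g, L0 g ≤ L := by
    obtain ⟨L, hL⟩ := (Set.finite_range L0).bddAbove
    exact ⟨L, fun g => hL ⟨g, rfl⟩⟩
  choose E hEf hw using fun g => hL g L (hLmax g)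
  set DD : Set (Fin N → ℤ) := ⋃ g, D g with hDD
  set DD0 : Set (Fin N → ℤ) := ⋃ g, D0 g with hDD0
  set EE : Set (Fin N → ℤ) := ⋃ g, E g with hEE
  have hDDf : DD.Finite := Set.finite_iUnion hDf
  have hDD0f : DD0.Finite := Set.finite_iUnion hD0f
  have hEEf : EE.Finite := Set.finite_iUnion hEf
  have hDD0' : ∀ δ ∈ DD0, loc ∧ (∀ i, δ i ≤ 0) ∧ δ ≠ 0 := by
    intro δ hδ
    obtain ⟨g, hg⟩ := Set.mem_iUnion.1 hδ
    exact hD0 g δ hg
  set AW : Set ((Fin N → ℤ) × ℕ) := (DD ×ˢ {L + 1}) ∪ (DD0 ×ˢ {L}) with hAW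
  set A0 : Set ((Fin N → ℤ) × ℕ) := {(0, L)} with hA0
  set AZ : Set ((Fin N → ℤ) × ℕ) := AW ∪ (A0 ∪ EE ×ˢ {0}) with hAZ
  have hAWf : AW.Finite := (hDDf.prod (Set.finite_singleton _)).union
    (hDD0f.prod (Set.finite_singleton _))
  have hAZf : AZ.Finite := hAWf.union ((Set.finite_singleton _).union
    (hEEf.prod (Set.finite_singleton _)))
  have hnG : ∀ x ∈ G, nabQ x ∈ Submodule.span (BB d N) G := by
    intro x hx
    subst hf'
    exact gens_nab hBRK hGEN M g v a' K hgen x hx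
  have hnadd : ∀ u w : FnQ d N RR, nabQ (u + w) = nabQ u + nabQ w :=
    fun u w => hALG.2.2.2.2.2.2.2.1 d N ℂ u w
  have hnsm : ∀ (p : BB d N) (u : FnQ d N RR), nabQ (p • u) = p • nabQ u + dC p • u :=
    fun p u => hALG.2.2.2.2.2.2.2.2.1 d N ℂ p u
  have hnzero : nabQ (0 : FnQ d N RR) = 0 := by
    have := hnadd 0 0
    rw [add_zero] at this
    exact left_eq_add.1 this
  have hstab : ∀ A : Set ((Fin N → ℤ) × ℕ), ∀ x ∈ SA A G, nabQ x ∈ SA A G := fun A x hx =>
    Sp.nab_mem hnadd hnsm _ (SA.good hALG A) G hnG x hx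
  have key := hCN ℂ (Fin d ⊕ Fin N) (FnQ d N RR)
    { toFun := nabQ, map_zero' := hnzero, map_add' := hnadd } hnsm
    (SA AZ G) (SA AW G) (SA A0 G) (Sp.fg _ (hAZf.image _) G (gens_finite M g v f' K))
    (SA.mono Set.subset_union_left G)
    (SA.mono (Set.subset_union_left.trans Set.subset_union_right) G)
    (hstab AZ) (hstab AW) (hstab A0) (shAQ L (BopQ B)) (by
      intro x hx
      rw [map_shA, map_Bop]
      unfold SA Sp at hx
      induction hx using Submodule.span_induction with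
      | mem x hx =>
        obtain ⟨_, ⟨a, ha, rfl⟩, g, hg, rfl⟩ := hx
        rw [hA0, Set.mem_singleton_iff] at ha
        subst ha
        obtain ⟨w, hwm, z, hzm, he⟩ := hw ⟨g, hg⟩
        refine ⟨w, SA.mono ?_ G hwm, z, SA.mono ?_ G hzm, ?_⟩
        · apply Set.union_subset_union
          · exact Set.prod_mono (Set.subset_iUnion D _) subset_rfl
          · exact Set.prod_mono (Set.subset_iUnion D0 _) subset_rfl
        · refine Set.Subset.trans ?_ Set.subset_union_right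
          refine Set.Subset.trans ?_ Set.subset_union_right
          exact Set.prod_mono (Set.subset_iUnion E _) subset_rfl
        · rw [← he]
          show _ • lowQ 0 (shQ L g) = _
          rw [low_zero]
      | zero => exact ⟨0, zero_mem _, 0, zero_mem _, by rw [smul_zero, smul_zero, add_zero]⟩
      | add x y _ _ hx hy =>
        obtain ⟨w, hw, z, hz, he⟩ := hx
        obtain ⟨w', hw', z', hz', he'⟩ := hy
        refine ⟨w + w', add_mem hw hw', z + z', add_mem hz hz', ?_⟩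
        rw [smul_add, he, he', smul_add]; abel
      | smul q x _ hx =>
        obtain ⟨w, hw, z, hz, he⟩ := hx
        refine ⟨q • w, Submodule.smul_mem _ _ hw, q • z, Submodule.smul_mem _ _ hz, ?_⟩
        rw [smul_comm, he, smul_add, smul_comm q])
  -- the final relation
  have hx0 : lowQ 0 (shQ L (brkQ M f' 1 0)) ∈ SA A0 G :=
    SA.mem (a := ((0 : Fin N → ℤ), L)) rfl (one_mem M g v f' K)
  have hfin := key _ hx0
  rw [map_shA, map_Bop, low_zero, hAW, SA.union] at hfin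
  obtain ⟨w1, hw1, w2, hw2, he⟩ := Submodule.mem_sup.1 hfin
  obtain ⟨n, T, g, q, hT, hg, hr⟩ := Sp.rep _ (SA.good hALG _) G w1 hw1
  obtain ⟨n0, T0, g0, q0, hT0, hg0, hr0⟩ := Sp.rep _ (SA.good hALG _) G w2 hw2
  have hT' : ∀ k, ∃ δ : Fin N → ℤ, T k = op (δ, L + 1) := by
    intro k
    obtain ⟨⟨δ, l⟩, ⟨-, hl⟩, h⟩ := hT k
    have hl' : l = L + 1 := hl
    subst hl'
    exact ⟨δ, h.symm⟩
  have hT0' : ∀ k, ∃ δ : Fin N → ℤ, δ ∈ DD0 ∧ T0 k = op (δ, L) := by
    intro k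
    obtain ⟨⟨δ, l⟩, ⟨hδ, hl⟩, h⟩ := hT0 k
    have hl' : l = L := hl
    subst hl'
    exact ⟨δ, hδ, h.symm⟩
  choose δ hδ using hT'
  choose δ0 hδ0m hδ0 using hT0'
  choose m c hm hc hgc using hg
  choose m0 c0 hm0 hc0 hgc0 using hg0
  refine ⟨L, n, n0, δ, c, m, fun k => shAQ 1 (q k), δ0, c0, m0, q0, hc, hc0,
    fun k => hDD0' _ (hδ0m k), ?_⟩
  intro n1 hs e
  obtain ⟨t, rfl⟩ : ∃ t : Fin d → ℕ, n1 = fun i => t i + L :=
    ⟨fun i => n1 i - L, by funext i; exact (Nat.sub_add_cancel (hs i)).symm⟩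
  obtain ⟨a1, a2, a3, a4, a5, a6, -⟩ := id hALG
  have h1 : w1 = shQ L (∑ k, lowQ (δ k) (shAQ 1 (q k) • shQ 1 (brkQ M f' (monomial (c k) 1) (m k)))) := by
    rw [hr, sh_sum hALG]
    refine Finset.sum_congr rfl fun k _ => ?_
    rw [hδ, hgc, a5, ← a6]
    show lowQ (δ k) (shQ (L + 1) _) = _
    rw [Nat.add_comm L 1, sh_add]
  have h2 : w2 = shQ L (∑ k, lowQ (δ0 k) (q0 k • brkQ M f' (monomial (c0 k) 1) (m0 k))) := by
    rw [hr0, sh_sum hALG]
    refine Finset.sum_congr rfl fun k _ => ?_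
    rw [hδ0, hgc0, a5]
    rfl
  rw [h1, h2, ← a4, ← a6] at he
  have h3 := congrFun (congrFun he t) e
  have h4 : shQ L ((BopQ B : BB d N) • brkQ M f' 1 0) t e =
      algebraMap ℂ RR (eval (fun i => ((t i + L : ℕ) : ℂ)) B) * 1 *
        coeff e (∏ k, f' k ^ SM M (fun i => t i + L) k) := by
    show eval (evQ (fun i => t i + L) e) (BopQ B : BB d N) *
      coeff e (1 * (((∏ k, (SM M (fun i => t i + L) k).descFactorial
        ((0 : Fin (P+1) → ℕ) k) : ℕ)) : MvPolynomial (Fin N) RR) *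
        ∏ k, f' k ^ (SM M (fun i => t i + L) k - (0 : Fin (P+1) → ℕ) k)) = _
    rw [eval_Bop]
    simp
  rw [← h4, ← h3]
  show ((∑ k, lowQ (δ k) (shAQ 1 (q k) • shQ 1 (brkQ M f' (monomial (c k) 1) (m k)))) +
    (∑ k, lowQ (δ0 k) (q0 k • brkQ M f' (monomial (c0 k) 1) (m0 k)))) (fun i => t i + L) e = _
  have hsum : ∀ (S : Finset (Fin n)) (u : Fin n → FnQ d N RR),
      (∑ k ∈ S, u k) (fun i => t i + L) e = ∑ k ∈ S, u k (fun i => t i + L) e := by
    intro S u
    induction S using Finset.induction_on with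
    | empty => rfl
    | insert k S hk ih => rw [Finset.sum_insert hk, Finset.sum_insert hk, addQ_apply, ih]
  have hsum0 : ∀ (S : Finset (Fin n0)) (u : Fin n0 → FnQ d N RR),
      (∑ k ∈ S, u k) (fun i => t i + L) e = ∑ k ∈ S, u k (fun i => t i + L) e := by
    intro S u
    induction S using Finset.induction_on with
    | empty => rfl
    | insert k S hk ih => rw [Finset.sum_insert hk, Finset.sum_insert hk, addQ_apply, ih]
  rw [addQ_apply, hsum, hsum0]

end Pool.Agent.W423.NT
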