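import Pool.Agent.W423.NX.Defs
import Pool.Agent.W425.ND.Stm

set_option autoImplicit false

/-! Project NT: nondegenerate tuples and products, with given coefficients. Definitions.

The functional equations are indexed by `n ∈ ℕ ^ d`; the exponent of `g_k` is
`SM M n k = ∑_t M k t * n t`. For tuples `M` is the identity matrix, for products `∏ g_k ^ (m_k)`
we have `d = 1`, `M k 0 = m_k`. -/

namespace Pool.Agent.W423.NT

open MvPolynomial Pool.Agent.H628R4.TZ Pool.Agent.W425.SM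
open Pool.Agent.H628R4.TP hiding Sh
open Pool.Agent.W525.SM (Sh)
open Pool.Agent.W423.MG
open Pool.Agent.W423.NC
open Pool.Agent.W423.NX
open Pool.Agent.W425.ND (Gen Nondeg spa dC tr)

variable {d r N P : ℕ} {R : Type} [CommRing R]

/-! ### Sequences indexed by `ℕ ^ d` -/

/-- Sequences (indexed by `n ∈ ℕ ^ d`) of families of coefficients (indexed by exponents). -/
def FnQ (d N : ℕ) (R : Type) : Type := (Fin d → ℕ) → (Fin N →₀ ℕ) → R

noncomputable instance : AddCommGroup (FnQ d N R) :=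
  inferInstanceAs (AddCommGroup ((Fin d → ℕ) → (Fin N →₀ ℕ) → R))

/-- the point `(n, e)` -/
def evQ (n : Fin d → ℕ) (e : Fin N →₀ ℕ) : Fin d ⊕ Fin N → R
  | Sum.inl t => ((n t : ℕ) : R)
  | Sum.inr i => ((e i : ℕ) : R)

/-- Polynomials in the `n_t` and in the Euler operators `x_i ∂_i` act on the sequences. -/
noncomputable instance instFnQ : Module (MvPolynomial (Fin d ⊕ Fin N) R) (FnQ d N R) where
  smul p u := fun n e => eval (evQ n e) p * u n e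
  one_smul u := by funext n e; show eval _ 1 * u n e = u n e; rw [map_one, one_mul]
  mul_smul p q u := by
    funext n e
    show eval _ (p * q) * u n e = eval _ p * (eval _ q * u n e)
    rw [map_mul, mul_assoc]
  smul_zero p := by funext n e; show eval _ p * (0 : R) = 0; rw [mul_zero]
  smul_add p u w := by
    funext n e
    show eval _ p * (u n e + w n e) = eval _ p * u n e + eval _ p * w n e
    rw [mul_add]
  add_smul p q u := by
    funext n e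
    show eval _ (p + q) * u n e = eval _ p * u n e + eval _ q * u n e
    rw [map_add, add_mul]
  zero_smul u := by funext n e; show eval _ 0 * u n e = 0; rw [map_zero, zero_mul]

lemma smulQ_apply (p : MvPolynomial (Fin d ⊕ Fin N) R) (u : FnQ d N R) (n : Fin d → ℕ)
    (e : Fin N →₀ ℕ) : (p • u) n e = eval (evQ n e) p * u n e := rfl

lemma addQ_apply (u w : FnQ d N R) (n : Fin d → ℕ) (e : Fin N →₀ ℕ) :
    (u + w) n e = u n e + w n e := rfl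

/-- The operator `x ^ (δ⁻) ∂ ^ (δ⁺)`, which lowers the exponents by `δ`. -/
noncomputable def lowQ (δ : Fin N → ℤ) (u : FnQ d N R) : FnQ d N R := fun n e =>
  if ∀ i, 0 ≤ (e i : ℤ) + δ i then
    ((∏ i, ((e i : ℤ) + δ i).toNat.descFactorial (δ i).toNat : ℕ) : R) * u n (tr δ e) else 0

/-- the shift `n → n + L (1, …, 1)` -/
def shQ (L : ℕ) (u : FnQ d N R) : FnQ d N R := fun n e => u (fun t => n t + L) e

/-- the exponents: `s_k = ∑_t M k t * n t` -/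
def SM (M : Fin (P+1) → Fin d → ℕ) (n : Fin d → ℕ) (k : Fin (P+1)) : ℕ := ∑ t, M k t * n t

/-- the sum of a row of `M` -/
def rowM (M : Fin (P+1) → Fin d → ℕ) (k : Fin (P+1)) : ℕ := ∑ t, M k t

/-- the sequence `n ↦ p * ∏_k s_k (s_k - 1) ... (s_k - μ_k + 1) * ∏_k G_k ^ (s_k - μ_k)`, where
`s = SM M n` -/
noncomputable def brkQ (M : Fin (P+1) → Fin d → ℕ) (G : Fin (P+1) → MvPolynomial (Fin N) R)
    (p : MvPolynomial (Fin N) R) (μ : Fin (P+1) → ℕ) : FnQ d N R := fun n e =>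
  coeff e (p * ((∏ k, (SM M n k).descFactorial (μ k) : ℕ) : MvPolynomial (Fin N) R) *
    ∏ k, G k ^ (SM M n k - μ k))

/-- translation by `δ` of the Euler operators -/
noncomputable def trQ (δ : Fin N → ℤ) :
    MvPolynomial (Fin d ⊕ Fin N) R →ₐ[R] MvPolynomial (Fin d ⊕ Fin N) R :=
  aeval (Sum.elim (fun t => X (Sum.inl t)) fun i => X (Sum.inr i) + C ((δ i : ℤ) : R))

/-- translation of the `n_t` by `L` -/
noncomputable def shAQ (L : ℕ) :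
    MvPolynomial (Fin d ⊕ Fin N) R →ₐ[R] MvPolynomial (Fin d ⊕ Fin N) R :=
  aeval (Sum.elim (fun t => X (Sum.inl t) + C ((L : ℕ) : R)) fun i => X (Sum.inr i))

/-- a polynomial in the `n_t` -/
noncomputable def BopQ [Algebra ℂ R] (B : MvPolynomial (Fin d) ℂ) :
    MvPolynomial (Fin d ⊕ Fin N) R := aeval (fun t => X (Sum.inl t)) B

/-- `b(n) b(n-1) ... b(n-K)` -/
noncomputable def prodbQ (b : MvPolynomial (Fin d) ℂ) (K : ℕ) : MvPolynomial (Fin d) ℂ :=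
  ∏ i ∈ Finset.range (K + 1), aeval (fun t => X t - C (i : ℂ)) b

/-- the form `s_k = ∑_t M k t * n_t` -/
noncomputable def linQ (M : Fin (P+1) → Fin d → ℕ) (k : Fin (P+1)) :
    MvPolynomial (Fin d ⊕ Fin N) R := ∑ t, C ((M k t : ℕ) : R) * X (Sum.inl t)

/-- coefficientwise derivative of sequences -/
noncomputable def nabQ {k : Type} [Field k] (u : FnQ d N (PowerSeries k)) :
    FnQ d N (PowerSeries k) := fun n e => PowerSeries.derivative k (u n e)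

/-- `u(n) = q(n) ∏ G_k ^ (s_k - L)` -/
def IsRepQ (M : Fin (P+1) → Fin d → ℕ) (G : Fin (P+1) → MvPolynomial (Fin N) R)
    (u : FnQ d N R) : Prop :=
  ∃ (L : ℕ) (q : MvPolynomial (Fin d) (MvPolynomial (Fin N) R))
    (U : (Fin d → ℕ) → MvPolynomial (Fin N) R),
    (∀ n e, u n e = coeff e (U n)) ∧
    ∀ n : Fin d → ℕ, (∏ k, G k ^ L) * U n =
      eval (fun t => ((n t : ℕ) : MvPolynomial (Fin N) R)) q * ∏ k, G k ^ SM M n k

/-! ### The tuple -/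

/-- The polynomial `g_k = ∑_{g j = k} a_j x ^ (v j)` over any ring. -/
noncomputable def polyR (g : Fin r → Fin (P+1)) (v : Fin r → Fin N → ℕ) (a : Fin r → R)
    (k : Fin (P+1)) : MvPolynomial (Fin N) R :=
  ∑ j, if g j = k then C (a j) * ∏ i, X i ^ v j i else 0

/-- the Cayley configuration -/
def cay (g : Fin r → Fin (P+1)) (v : Fin r → Fin N → ℕ) : Fin r → Fin (P+1+N) → ℕ :=
  fun j => Fin.append (fun k => if g j = k then 1 else 0) (v j)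

/-- `c` lies in the sum of the `μ_k` times the convex hulls of the groups. -/
def HulC (g : Fin r → Fin (P+1)) (v : Fin r → Fin N → ℕ) (μ : Fin (P+1) → ℕ)
    (c : Fin N →₀ ℕ) : Prop :=
  ∃ l : Fin r → ℝ, (∀ j, 0 ≤ l j) ∧ (∀ k, gs g l k = (μ k : ℝ)) ∧
    ∀ i, ∑ j, l j * (v j i : ℝ) = (c i : ℝ)

/-- `v j` lies on the face of the convex hull of its group where the linear form `w` is minimal. -/
def onFaceG (g : Fin r → Fin (P+1)) (v : Fin r → Fin N → ℕ) (w : Fin N → ℝ) (j : Fin r) : Prop :=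
  ∀ j', g j' = g j → ∑ i, w i * (v j i : ℝ) ≤ ∑ i, w i * (v j' i : ℝ)

open Classical in
/-- The tuple `(g_0, …, g_P)`, `g_k = ∑_{g j = k} a_j x ^ (v j)`, is nondegenerate: for every linear
form `w` and every nonempty set `K` of indices, the face polynomials of the `g_k`, `k ∈ K`, have no
common zero in the torus at which their differentials are linearly dependent (with all
coefficients `y_k` different from `0`; smaller sets of indices are covered by other `K`). -/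
def NondegT (g : Fin r → Fin (P+1)) (v : Fin r → Fin N → ℕ) (a : Fin r → ℂ) : Prop :=
  ∀ (w : Fin N → ℝ) (K : Finset (Fin (P+1))) (x : Fin N → ℂ) (y : Fin (P+1) → ℂ), K.Nonempty →
    (∀ i, x i ≠ 0) → (∀ k ∈ K, y k ≠ 0) →
    (∀ k ∈ K, (∑ j, if g j = k ∧ onFaceG g v w j then a j * ∏ i, x i ^ v j i else 0) = 0) →
    ¬ ∀ i, ∑ k ∈ K, y k *
      (∑ j, if g j = k ∧ onFaceG g v w j then a j * (v j i : ℂ) * ∏ i, x i ^ v j i else 0) = 0

/-- The relation obtained by deformation. -/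
def RelQ [Algebra ℂ R] (loc : Prop) (M : Fin (P+1) → Fin d → ℕ) (g : Fin r → Fin (P+1))
    (v : Fin r → Fin N → ℕ) (G : Fin (P+1) → MvPolynomial (Fin N) R) (A : R)
    (B : MvPolynomial (Fin d) ℂ) : Prop :=
  ∃ (L n1 n0 : ℕ) (δ : Fin n1 → Fin N → ℤ) (c : Fin n1 → Fin N →₀ ℕ)
    (μ : Fin n1 → Fin (P+1) → ℕ) (Q : Fin n1 → MvPolynomial (Fin d ⊕ Fin N) R)
    (δ0 : Fin n0 → Fin N → ℤ) (c0 : Fin n0 → Fin N →₀ ℕ) (μ0 : Fin n0 → Fin (P+1) → ℕ)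
    (Q0 : Fin n0 → MvPolynomial (Fin d ⊕ Fin N) R),
    (∀ k, HulC g v (μ k) (c k)) ∧ (∀ k, HulC g v (μ0 k) (c0 k)) ∧
    (∀ k, loc ∧ (∀ i, δ0 k i ≤ 0) ∧ δ0 k ≠ 0) ∧
    ∀ n : Fin d → ℕ, (∀ t, L ≤ n t) → ∀ e,
      algebraMap ℂ R (eval (fun t => (n t : ℂ)) B) * A * coeff e (∏ k, G k ^ SM M n k) =
      ∑ k, lowQ (δ k) (Q k • shQ 1 (brkQ M G (monomial (c k) 1) (μ k))) n e +
      ∑ k, lowQ (δ0 k) (Q0 k • brkQ M G (monomial (c0 k) 1) (μ0 k)) n e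

/-- The functional equation `b(n) A ∏ G_k ^ s_k = D(n) ∏ G_k ^ (s_k + m_k)`, `s = SM M n`,
`m = rowM M`, with a unit `A` at the origin (`A = 1` if not `loc`). -/
def FEQ (loc : Prop) (M : Fin (P+1) → Fin d → ℕ) (G : Fin (P+1) → MvPolynomial (Fin N) ℂ)
    (b : MvPolynomial (Fin d) ℂ) : Prop :=
  ∃ (A : MvPolynomial (Fin N) ℂ) (D : (Fin d →₀ ℕ) →₀ weyl N),
    constantCoeff A = 1 ∧ (¬ loc → A = 1) ∧ ∀ n : Fin d → ℕ,
      C (eval (fun t => (n t : ℂ)) b) * (A * ∏ k, G k ^ SM M n k) =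
        D.sum fun β Q => (∏ t, (n t : ℂ) ^ β t) •
          (Q : Module.End ℂ (MvPolynomial (Fin N) ℂ)) (∏ k, G k ^ (SM M n k + rowM M k))

/-- The numerical relation at all `u ∈ ℕ ^ r` whose group sums are in `E`. -/
def NumRelW (loc : Prop) (g : Fin r → Fin (P+1)) (v : Fin r → Fin N → ℕ) (θ : Fin r → ℝ)
    (m : Fin (P+1) → ℕ) (E : Set (Fin (P+1) → ℕ)) (bs : (Fin (P+1) → ℕ) → ℂ) : Prop :=
  ∃ (M n n0 : ℕ) (c : Fin n → Fin r → ℤ) (B : Fin n → Finset (Fin N))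
    (q : Fin n → MvPolynomial (Fin r) ℂ) (c0 : Fin n0 → Fin r → ℤ)
    (q0 : Fin n0 → MvPolynomial (Fin r) ℂ),
    (∀ t, Kd1 g v m (c t) (B t)) ∧ (∀ t, Kd0 g v θ loc (c0 t)) ∧
    ∀ u : Fin r → ℕ, gs g u ∈ E →
      bs (gs g u) * eval (fun j => (u j : ℂ)) (∏ j, dm M j) =
        eval (fun j => (u j : ℂ)) (∑ t, (∏ i ∈ B t, el v i) *
            ((∏ j, if c t j < 0 then X j * dm M j else 1) * q t) +
          ∑ t, (∏ j, if c0 t j < 0 then X j * dm M j else 1) * q0 t)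

/-! ### The parts -/

/-- Part ALG: commutation rules. -/
def TaskALGQ : Prop :=
  (∀ (d N : ℕ) (R : Type) [CommRing R] (δ : Fin N → ℤ) (u w : FnQ d N R),
    lowQ δ (u + w) = lowQ δ u + lowQ δ w) ∧
  (∀ (d N : ℕ) (R : Type) [CommRing R] (δ : Fin N → ℤ) (p : MvPolynomial (Fin d ⊕ Fin N) R)
    (u : FnQ d N R), lowQ δ (p • u) = trQ δ p • lowQ δ u) ∧
  (∀ (d N : ℕ) (R : Type) [CommRing R] (δ : Fin N → ℤ) (p : MvPolynomial (Fin d ⊕ Fin N) R)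
    (u : FnQ d N R), p • lowQ δ u = lowQ δ (trQ (fun i => -δ i) p • u)) ∧
  (∀ (d N : ℕ) (R : Type) [CommRing R] (L : ℕ) (u w : FnQ d N R),
    shQ L (u + w) = shQ L u + shQ L w) ∧
  (∀ (d N : ℕ) (R : Type) [CommRing R] (L : ℕ) (δ : Fin N → ℤ) (u : FnQ d N R),
    shQ L (lowQ δ u) = lowQ δ (shQ L u)) ∧
  (∀ (d N : ℕ) (R : Type) [CommRing R] (L : ℕ) (p : MvPolynomial (Fin d ⊕ Fin N) R)
    (u : FnQ d N R), shQ L (p • u) = shAQ L p • shQ L u) ∧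
  (∀ (d N : ℕ) (R : Type) [CommRing R] (L : ℕ) (p : MvPolynomial (Fin d ⊕ Fin N) R)
    (u : FnQ d N R), ∃ q : MvPolynomial (Fin d ⊕ Fin N) R, shAQ L q = p ∧
      p • shQ L u = shQ L (q • u)) ∧
  (∀ (d N : ℕ) (k : Type) [Field k] (u w : FnQ d N (PowerSeries k)),
    nabQ (u + w) = nabQ u + nabQ w) ∧
  (∀ (d N : ℕ) (k : Type) [Field k] (p : MvPolynomial (Fin d ⊕ Fin N) (PowerSeries k))
    (u : FnQ d N (PowerSeries k)), nabQ (p • u) = p • nabQ u + dC p • u) ∧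
  (∀ (d N : ℕ) (k : Type) [Field k] (δ : Fin N → ℤ) (u : FnQ d N (PowerSeries k)),
    nabQ (lowQ δ u) = lowQ δ (nabQ u)) ∧
  (∀ (d N : ℕ) (k : Type) [Field k] (L : ℕ) (u : FnQ d N (PowerSeries k)),
    nabQ (shQ L u) = shQ L (nabQ u))

/-- Part BRK: rules for the sequences `brkQ M G p μ`. -/
def TaskBRKQ : Prop :=
  (∀ (d N P : ℕ) (R : Type) [CommRing R] (M : Fin (P+1) → Fin d → ℕ)
    (G : Fin (P+1) → MvPolynomial (Fin N) R) (p q : MvPolynomial (Fin N) R)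
    (μ : Fin (P+1) → ℕ), brkQ M G (p + q) μ = brkQ M G p μ + brkQ M G q μ) ∧
  (∀ (d N P : ℕ) (R : Type) [CommRing R] (M : Fin (P+1) → Fin d → ℕ)
    (G : Fin (P+1) → MvPolynomial (Fin N) R) (p : MvPolynomial (Fin N) R) (t : R)
    (μ : Fin (P+1) → ℕ),
    brkQ M G (C t * p) μ = (C t : MvPolynomial (Fin d ⊕ Fin N) R) • brkQ M G p μ) ∧
  (∀ (d N P : ℕ) (R : Type) [CommRing R] (M : Fin (P+1) → Fin d → ℕ)
    (G : Fin (P+1) → MvPolynomial (Fin N) R) (p : MvPolynomial (Fin N) R)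
    (μ : Fin (P+1) → ℕ) (k : Fin (P+1)),
    brkQ M G (p * G k) (μ + Pi.single k 1) =
      (linQ M k - C ((μ k : ℕ) : R) : MvPolynomial (Fin d ⊕ Fin N) R) • brkQ M G p μ) ∧
  (∀ (d N P : ℕ) (R : Type) [CommRing R] (M : Fin (P+1) → Fin d → ℕ)
    (G : Fin (P+1) → MvPolynomial (Fin N) R) (p : MvPolynomial (Fin N) R)
    (μ : Fin (P+1) → ℕ) (i : Fin N),
    (X (Sum.inr i) : MvPolynomial (Fin d ⊕ Fin N) R) • brkQ M G p μ =
      brkQ M G (X i * pderiv i p) μ +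
      ∑ k, brkQ M G (p * (X i * pderiv i (G k))) (μ + Pi.single k 1)) ∧
  (∀ (d N P : ℕ) (R : Type) [CommRing R] (M : Fin (P+1) → Fin d → ℕ)
    (G : Fin (P+1) → MvPolynomial (Fin N) R) (p : MvPolynomial (Fin N) R)
    (μ : Fin (P+1) → ℕ) (c : Fin N →₀ ℕ),
    lowQ (fun i => -(c i : ℤ)) (brkQ M G p μ) = brkQ M G (monomial c 1 * p) μ) ∧
  (∀ (d N P : ℕ) (k : Type) [Field k] (M : Fin (P+1) → Fin d → ℕ)
    (G : Fin (P+1) → MvPolynomial (Fin N) (PowerSeries k))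
    (p : MvPolynomial (Fin N) (PowerSeries k)) (μ : Fin (P+1) → ℕ),
    nabQ (brkQ M G p μ) = brkQ M G (dC p) μ +
      ∑ l, brkQ M G (p * dC (G l)) (μ + Pi.single l 1))

/-- Part GEN: the sequences `brkQ M G (x ^ c) μ` of degree at most `K` generate. -/
def TaskGENQ : Prop := TaskBRKQ → ∀ (d r N P : ℕ) (R : Type) [CommRing R]
  (M : Fin (P+1) → Fin d → ℕ) (g : Fin r → Fin (P+1)) (v : Fin r → Fin N → ℕ)
  (a : Fin r → R) (K : ℕ), Gen (cay g v) (spa (cay g v) a) K →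
  ∀ (μ : Fin (P+1) → ℕ) (p : MvPolynomial (Fin N) R), (∀ c, coeff c p ≠ 0 → HulC g v μ c) →
  brkQ M (polyR g v a) p μ ∈ Submodule.span (MvPolynomial (Fin d ⊕ Fin N) R)
    {u : FnQ d N R | ∃ (μ' : Fin (P+1) → ℕ) (c' : Fin N →₀ ℕ), ∑ k, μ' k ≤ K ∧
      HulC g v μ' c' ∧ u = brkQ M (polyR g v a) (monomial c' 1) μ'}

/-- Part REP1: closure properties of `IsRepQ`. -/
def TaskREP1Q : Prop := ∀ (d N P : ℕ) (R : Type) [CommRing R] (M : Fin (P+1) → Fin d → ℕ)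
  (G : Fin (P+1) → MvPolynomial (Fin N) R),
  (∀ (p : MvPolynomial (Fin N) R) (μ : Fin (P+1) → ℕ), IsRepQ M G (brkQ M G p μ)) ∧
  (∀ u w : FnQ d N R, IsRepQ M G u → IsRepQ M G w → IsRepQ M G (u + w)) ∧
  (∀ (p : MvPolynomial (Fin d ⊕ Fin N) R) (u : FnQ d N R), IsRepQ M G u → IsRepQ M G (p • u)) ∧
  (∀ (δ : Fin N → ℤ) (u : FnQ d N R), IsRepQ M G u → IsRepQ M G (lowQ δ u)) ∧
  (∀ (L : ℕ) (u : FnQ d N R), IsRepQ M G u → IsRepQ M G (shQ L u))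

/-- Part REP2: division by the parameter. -/
def TaskREP2Q : Prop := ∀ (d N P : ℕ) (k : Type) [Field k] [CharZero k]
  (M : Fin (P+1) → Fin d → ℕ) (G : Fin (P+1) → MvPolynomial (Fin N) (PowerSeries k)),
  (∀ l, 1 ≤ rowM M l) → (∀ l, map PowerSeries.constantCoeff (G l) ≠ 0) →
  ∀ u : FnQ d N (PowerSeries k), IsRepQ M G u →
  (∀ n e, PowerSeries.constantCoeff (u n e) = 0) →
  ∃ z : FnQ d N (PowerSeries k), (∀ n e, u n e = PowerSeries.X * z n e) ∧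
    ∃ (L n1 : ℕ) (c : Fin n1 → Fin N →₀ ℕ)
      (Q : Fin n1 → MvPolynomial (Fin d ⊕ Fin N) (PowerSeries k)),
      shQ L z = ∑ l, lowQ (fun i => -(c l i : ℤ)) (Q l • brkQ M G 1 0)

/-- Part SPEC: the functional equation for all `brkQ M G p μ`, `μ ≤ K`. -/
def TaskSPECQ : Prop := ∀ (d N P : ℕ) (loc : Prop) (M : Fin (P+1) → Fin d → ℕ)
  (G : Fin (P+1) → MvPolynomial (Fin N) ℂ) (b : MvPolynomial (Fin d) ℂ),
  (∀ l, 1 ≤ rowM M l) → FEQ loc M G b → ∀ (K : ℕ) (μ : Fin (P+1) → ℕ), (∀ k, μ k ≤ K) →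
  ∀ p : MvPolynomial (Fin N) ℂ,
  ∃ (n1 n0 : ℕ) (δ : Fin n1 → Fin N → ℤ) (Q : Fin n1 → MvPolynomial (Fin d ⊕ Fin N) ℂ)
    (δ0 : Fin n0 → Fin N → ℤ) (α : Fin n0 → ℂ),
    (∀ k, loc ∧ (∀ i, δ0 k i ≤ 0) ∧ δ0 k ≠ 0) ∧
    shQ K ((BopQ (prodbQ b K) : MvPolynomial (Fin d ⊕ Fin N) ℂ) • brkQ M G p μ) =
      shQ K (∑ k, lowQ (δ k) (Q k • shQ 1 (brkQ M G 1 0)) +
        ∑ k, lowQ (δ0 k) ((C (α k) * BopQ (prodbQ b K) :
          MvPolynomial (Fin d ⊕ Fin N) ℂ) • brkQ M G p μ))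

/-- Part DESC: descent from power series to polynomials in the coefficients. -/
def TaskDESCQ : Prop := ∀ (d r N P : ℕ) (loc : Prop) (M : Fin (P+1) → Fin d → ℕ)
  (g : Fin r → Fin (P+1)) (v : Fin r → Fin N → ℕ) (a' : Fin r → PowerSeries ℂ)
  (B : MvPolynomial (Fin d) ℂ), AlgebraicIndependent ℂ a' →
  RelQ loc M g v (polyR g v a') 1 B →
  ∃ A : MvPolynomial (Fin r) ℂ, A ≠ 0 ∧
    RelQ loc M g v (polyR g v (X : Fin r → MvPolynomial (Fin r) ℂ)) A B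

/-- Part V2E: comparison of the coefficients of `x ^ (∑ u_j v_j) y ^ (u + κ)`. -/
def TaskV2EQ : Prop := ∀ (d r N P : ℕ) (loc : Prop) (M : Fin (P+1) → Fin d → ℕ)
  (ν : Fin d → MvPolynomial (Fin (P+1)) ℂ) (g : Fin r → Fin (P+1)) (v : Fin r → Fin N → ℕ)
  (A : MvPolynomial (Fin r) ℂ) (B : MvPolynomial (Fin d) ℂ) (θ : Fin r → ℝ),
  (∀ (n : Fin d → ℕ) (t : Fin d), eval (fun k => (SM M n k : ℂ)) (ν t) = (n t : ℂ)) →
  LinearIndependent ℚ θ → (∀ k, ∃ j, g j = k) → (∀ l, 1 ≤ rowM M l) → A ≠ 0 →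
  RelQ loc M g v (polyR g v (X : Fin r → MvPolynomial (Fin r) ℂ)) A B →
  ∀ bs : (Fin (P+1) → ℕ) → ℂ, (∀ n, bs (SM M n) = eval (fun t => (n t : ℂ)) B) →
  ∃ L : ℕ, NumRelW loc g v θ (rowM M) {s | ∃ n : Fin d → ℕ, (∀ t, L ≤ n t) ∧ s = SM M n} bs

/-- Part NDC: a nondegenerate tuple has a nondegenerate Cayley configuration. -/
def TaskNDC : Prop := ∀ (r N P : ℕ) (g : Fin r → Fin (P+1)) (v : Fin r → Fin N → ℕ)
  (a : Fin r → ℂ), (∀ k, ∃ j, g j = k) → NondegT g v a → Nondeg (cay g v) a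

/-- Part RELT: the relation for tuples. -/
def TaskRelTW : Prop := ∀ {r N P : ℕ} (g : Fin r → Fin (P+1)) (v : Fin r → Fin N → ℕ)
  (θ : Fin r → ℝ) (B : MvPolynomial (Fin (P+1)) ℂ) (L : ℕ), (∀ k, ∃ j, g j = k) →
  NumRelW False g v θ (fun _ => 1) {s | ∀ k, L ≤ s k} (fun s => eval (fun k => (s k : ℂ)) B) →
    ∀ (θ0 : ℝ) (η : Fin (P+1) → ℝ) (α : Fin (P+1+N) → ℝ),
      RelX (vx g v (fun _ => 1)) (wh η) (Fin.cons θ0 θ) α 1 (X 0 * rn (bts g B))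

/-- Part MODL: the ideal of the variety `S_k = m_k (X_0 + ∑ X_j + η)`. -/
def TaskModL : Prop := ∀ {r P : ℕ} (g : Fin r → Fin (P+1)) (m : Fin (P+1) → ℕ) (η : ℝ) (L : ℕ)
  (G : MvPolynomial (Fin (r+1)) ℂ), (∀ k, ∃ j, g j = k) → (∀ k, 1 ≤ m k) →
  (∀ (n : ℕ) (u : Fin r → ℕ), L ≤ n → (∀ k, gs g u k = m k * n) →
    eval (Fin.cons ((n : ℂ) - (η : ℂ) - ∑ j, (u j : ℂ)) (fun j => (u j : ℂ)) : Fin (r+1) → ℂ)
      G = 0) →
  G ∈ Ideal.span (Set.range fun k => rn (sgm g k) - C ((m k : ℕ) : ℂ) * (Sg r + C (η : ℂ)))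

/-- Part RELP: the relation for products. -/
def TaskRelPW : Prop := ∀ {r N P : ℕ} (loc : Prop) (g : Fin r → Fin (P+1))
  (v : Fin r → Fin N → ℕ) (θ : Fin r → ℝ) (m : Fin (P+1) → ℕ) (bs : (Fin (P+1) → ℕ) → ℂ)
  (b : Polynomial ℂ) (L : ℕ), (∀ k, ∃ j, g j = k) → (∀ k, 1 ≤ m k) →
  (∀ n : ℕ, bs (fun k => m k * n) = b.eval (n : ℂ)) →
  NumRelW loc g v θ m {s | ∃ n : ℕ, L ≤ n ∧ s = fun k => m k * n} bs →
  ∃ n1 : ℕ, 2 ≤ n1 ∧ ∀ (θ0 η α0 αx : ℝ), 0 < η → (loc → αx < 0) →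
    (∀ j, αx * ∑ i, (v j i : ℝ) < α0) →
    RelX (vx g v m) (wh fun k => η * (m k : ℝ)) (Fin.cons θ0 θ) (ax α0 αx) 1
      (X 0 * (rn (rise g n1) * Polynomial.aeval (Sg r + C (η : ℂ)) b))

/-- Part FE1: functional equations of tuples. -/
def TaskFE1 : Prop := ∀ {N P : ℕ} (f : Fin (P+1) → MvPolynomial (Fin N) ℂ)
  (b : MvPolynomial (Fin (P+1)) ℂ), InBSIdealT f b →
  FEQ (d := P+1) False (fun k t => if k = t then 1 else 0) f b

/-- Part FE2: functional equations of products. -/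
def TaskFE2 : Prop := ∀ {N P : ℕ} (G : Fin (P+1) → MvPolynomial (Fin N) ℂ)
  (m : Fin (P+1) → ℕ) (b : Polynomial ℂ),
  (IsBFunction (∏ k, G k ^ m k) b →
    FEQ (d := 1) False (fun k _ => m k) G (Polynomial.aeval (X 0) b)) ∧
  ((∏ k, G k ^ m k) ≠ 0 → constantCoeff (∏ k, G k ^ m k) = 0 →
    Pool.Agent.W425.SL.IsLocalBFunction (∏ k, G k ^ m k) b →
    FEQ (d := 1) True (fun k _ => m k) G (Polynomial.aeval (X 0) b))

end Pool.Agent.W423.NT
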