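import Pool.Agent.W423.NT.Def3
import Pool.Agent.W423.NX.Ev2

set_option autoImplicit false

/-! Project NT: the evaluation and the theorems from the parts. -/

namespace Pool.Agent.W423.NT

open MvPolynomial Pool.Agent.H628R4.TZ Pool.Agent.W425.SM
open Pool.Agent.H628R4.TP hiding Sh
open Pool.Agent.W525.SM (Sh)
open Pool.Agent.W423.MG
open Pool.Agent.W423.NC
open Pool.Agent.W423.NX
open Pool.Agent.W425.ND (Gen Nondeg spa dC TaskCN TaskEXP TaskNAK prodb)
open MeasureTheory Set Filter Topology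

variable {r N P : ℕ}

/-- Tuples, `e = 1`. -/
theorem evalTW_of (h1 : TaskKillX) (h3 : TaskKerX) (h4 : TaskKer2) (h5 : TaskLimX)
    (g : Fin r → Fin (P+1)) (v : Fin r → Fin N → ℕ) (θ : Fin r → ℝ)
    (hθ : LinearIndependent ℚ θ) (hg : ∀ k, ∃ j, g j = k) (R : SmoothFan N)
    (hR : PrincipalG g v R) (B : MvPolynomial (Fin (P+1)) ℂ)
    (hrel : ∀ (θ0 : ℝ) (η : Fin (P+1) → ℝ) (α : Fin (P+1+N) → ℝ),
      RelX (vx g v (fun _ => 1)) (wh η) (Fin.cons θ0 θ) α 1 (X 0 * rn (bts g B)))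
    (η : Fin (P+1) → ℝ) (hη : ∀ k, 0 < η k ∧ η k < 1) :
    ∃ (Q : Polynomial ℂ) (s1 : ℝ), 0 < s1 ∧ ∀ s : ℝ, s1 ≤ s →
      eval (fun k => ((s + η k : ℝ) : ℂ)) (B * E1p g) *
        ∑ J ∈ Finset.univ.filter (fun J : Finset (Fin r) => ∀ k, ∃ j ∈ J, g j = k),
          (-1) ^ J.card * (idxC g v J : ℂ) ^ 2 * eval (fun k => ((s + η k : ℝ) : ℂ)) (hJ g J) *
            limT g v θ R η J s = Q.eval (s : ℂ) := by
  classical
  obtain ⟨θ0, hθ0⟩ := exists_ext θ hθ
  have hη0 : ∀ k, 0 < η k := fun k => (hη k).1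
  obtain ⟨α0, hα0, hα⟩ := al_exists v 1
  have hkill := h1 (vx g v (fun _ => 1)) (wh η) (wh_pos η hη0) (Fin.cons θ0 θ) (ax α0 1)
    1 (X 0 * rn (bts g B)) (rn (kerN g v) * rn (E1 g)) (hrel θ0 η (ax α0 1)) (by
      intro κ i hκ
      rw [mul_one]
      exact h3 g v (fun _ => 1) η hη κ i hκ)
  obtain ⟨Q, s0, hs0, hQ⟩ := evX h5 g v (fun _ => 1) (fun _ => le_refl _) θ θ0 hθ0 hg R hR η hη0
    α0 1 hα0 one_ne_zero hα (rn (kerN g v) * rn (E1 g) * (X 0 * rn (bts g B)))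
    (fun J => evx (fun _ => 1) η (hJ g J * (B * E1p g)))
    (fun J => rn (bts g (hJ g J * (B * E1p g))) -
      Polynomial.aeval (Sg r) (evx (fun _ => 1) η (hJ g J * (B * E1p g))))
    (fun J => btsx_sub g (fun _ => 1) η (hJ g J * (B * E1p g))) (by
      rw [h4 g v hg, map_sum, Finset.sum_mul, Finset.sum_mul]
      refine Finset.sum_congr rfl fun J _ => ?_
      have e2 := rn_X J (bts g (hJ g J)) (bts g B * E1 g) ((idxC g v J : ℂ) ^ 2)
      rw [map_mul rn (bts g B) (E1 g), E1_eq g hg] at e2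
      rw [E1_eq g hg]
      have e4 : rn (C ((idxC g v J : ℂ) ^ 2) * ((∏ j ∈ J, X j) * bts g (hJ g J))) *
          rn (bts g (E1p g)) * (X 0 * rn (bts g B)) =
          rn (C ((idxC g v J : ℂ) ^ 2) * ((∏ j ∈ J, X j) * bts g (hJ g J))) *
          (X 0 * (rn (bts g B) * rn (bts g (E1p g)))) := by ring
      rw [e4, e2, ← map_mul (bts g), ← map_mul (bts g)]
      congr 2
      ring) hkill
  refine ⟨Q, s0, hs0, fun s hs => ?_⟩
  rw [← hQ s hs, Finset.mul_sum]
  refine Finset.sum_congr rfl fun J _ => ?_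
  rw [limX_T, eval_evx]
  simp only [Nat.cast_one, one_mul, map_mul]
  ring

lemma E2_E1p (g : Fin r → Fin (P+1)) : E2 g * E1p g = ∏ k, (X k + 1) := by
  classical
  unfold E2 E1p mulS
  rw [← Finset.prod_filter_mul_prod_filter_not Finset.univ
    (fun k : Fin (P+1) => 2 ≤ (Finset.univ.filter fun j => g j = k).card)]
  congr 1
  refine Finset.prod_congr ?_ fun _ _ => rfl
  ext k
  simp

lemma polyR_C (g : Fin r → Fin (P+1)) (v : Fin r → Fin N → ℕ) (a : Fin r → ℂ) :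
    polyR g v a = polyG g v a := rfl

lemma polyR_map (g : Fin r → Fin (P+1)) (v : Fin r → Fin N → ℕ) (a' : Fin r → PowerSeries ℂ)
    (a : Fin r → ℂ) (h : ∀ j, PowerSeries.constantCoeff (a' j) = a j) (k : Fin (P+1)) :
    map PowerSeries.constantCoeff (polyR g v a' k) = polyG g v a k := by
  unfold polyR polyG
  rw [map_sum]
  refine Finset.sum_congr rfl fun j _ => ?_
  split_ifs
  · rw [map_mul, map_C, map_prod, h]
    congr 1
    refine Finset.prod_congr rfl fun i _ => ?_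
    rw [map_pow, map_X]
  · exact map_zero _

/-- evaluation at the point `1` -/
lemma eval_one_polyG (g : Fin r → Fin (P+1)) (v : Fin r → Fin N → ℕ) (a : Fin r → ℂ)
    (k : Fin (P+1)) : eval (fun _ => (1:ℂ)) (polyG g v a k) = ∑ j, if g j = k then a j else 0 := by
  unfold polyG
  rw [map_sum]
  refine Finset.sum_congr rfl fun j _ => ?_
  split_ifs
  · simp
  · exact map_zero _

lemma eval_one_pderiv (g : Fin r → Fin (P+1)) (v : Fin r → Fin N → ℕ) (a : Fin r → ℂ)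
    (k : Fin (P+1)) (i : Fin N) : eval (fun _ => (1:ℂ)) (pderiv i (polyG g v a k)) =
      ∑ j, if g j = k then a j * (v j i : ℂ) else 0 := by
  classical
  unfold polyG
  rw [map_sum, map_sum]
  refine Finset.sum_congr rfl fun j _ => ?_
  split_ifs
  · rw [Derivation.leibniz, pderiv_C, smul_zero, add_zero, smul_eq_mul, map_mul, eval_C]
    congr 1
    have h1 : (∏ i, X i ^ v j i : MvPolynomial (Fin N) ℂ) =
        monomial (Finsupp.equivFunOnFinite.symm (v j)) 1 := by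
      rw [monomial_eq, C_1, one_mul, Finsupp.prod_fintype]
      · simp
      · intro i; simp
    rw [h1, pderiv_monomial, eval_monomial]
    simp
  · simp

lemma polyG_ne_zero (g : Fin r → Fin (P+1)) (v : Fin r → Fin N → ℕ) (a : Fin r → ℂ)
    (h : NondegT g v a) (k : Fin (P+1)) : polyG g v a k ≠ 0 := by
  classical
  intro h0
  refine h (fun _ => 0) {k} (fun _ => 1) (fun _ => 1) (Finset.singleton_nonempty k)
    (fun _ => one_ne_zero) (fun _ _ => one_ne_zero) ?_ ?_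
  · intro k' hk'
    rw [Finset.mem_singleton] at hk'
    subst hk'
    have h1 := eval_one_polyG g v a k'
    rw [h0, map_zero] at h1
    refine Eq.trans (Finset.sum_congr rfl fun j _ => ?_) h1.symm
    have h2 : onFaceG g v (fun _ => 0) j := fun j' _ => by simp
    simp [h2]
  · intro i
    rw [Finset.sum_singleton, one_mul]
    have h1 := eval_one_pderiv g v a k i
    rw [h0, map_zero, map_zero] at h1
    refine Eq.trans (Finset.sum_congr rfl fun j _ => ?_) h1.symm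
    have h2 : onFaceG g v (fun _ => 0) j := fun j' _ => by simp
    simp [h2]

/-- The deformation theorem: the relation over `ℂ[y]`. -/
theorem relY_of (hCN : TaskCN) (hEXP : TaskEXP) (hNAK : TaskNAK)
    (hKOU : ∀ (r N : ℕ) (v : Fin r → Fin N → ℕ) (a : Fin r → ℂ), Nondeg v a →
      ∃ K, Gen v (spa v a) K)
    (hALG : TaskALGQ) (hBRK : TaskBRKQ) (hGEN : TaskGENQ) (hR1 : TaskREP1Q) (hR2 : TaskREP2Q)
    (hSPEC : TaskSPECQ) (hDESC : TaskDESCQ) (hNDC : TaskNDC)
    (g : Fin r → Fin (P+1)) (v : Fin r → Fin N → ℕ) (a : Fin r → ℂ) (hg : ∀ k, ∃ j, g j = k)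
    (hnd : NondegT g v a) :
    ∃ K : ℕ, ∀ (d : ℕ) (loc : Prop) (M : Fin (P+1) → Fin d → ℕ) (b : MvPolynomial (Fin d) ℂ),
      (∀ l, 1 ≤ rowM M l) → FEQ loc M (polyG g v a) b →
      ∃ A : MvPolynomial (Fin r) ℂ, A ≠ 0 ∧
        RelQ loc M g v (polyR g v (X : Fin r → MvPolynomial (Fin r) ℂ)) A (prodbQ b K) := by
  obtain ⟨K, hK⟩ := hKOU r (P+1+N) (cay g v) a (hNDC r N P g v a hg hnd)
  obtain ⟨a', ha', hind⟩ := hEXP r a
  have hgen := hNAK r (P+1+N) (cay g v) a K hK a' ha'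
  refine ⟨K, fun d loc M b hM hFE => ?_⟩
  have hmap : (fun l => map PowerSeries.constantCoeff (polyR g v a' l)) = polyG g v a := by
    funext l
    exact polyR_map g v a' a ha' l
  refine hDESC d r N P loc M g v a' (prodbQ b K) hind ?_
  refine def_of hCN hALG hBRK hGEN hR1 hR2 loc M hM g v (polyR g v a') a' rfl ?_ K K hgen
    (prodbQ b K) ?_
  · intro l
    rw [polyR_map g v a' a ha']
    exact polyG_ne_zero g v a hnd l
  · intro μ c hμ _
    rw [hmap]
    exact hSPEC d N P loc M (polyG g v a) b hM hFE K μ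
      (fun k => (Finset.single_le_sum (fun _ _ => Nat.zero_le _) (Finset.mem_univ k)).trans hμ)
      (monomial c 1)

/-- The relation for tuples. -/
theorem tupleW_of (hV2E : TaskV2EQ) (hRelT : TaskRelTW) (hFE : TaskFE1)
    (hKill : TaskKillX) (hKer : TaskKerX) (hKer2 : TaskKer2) (hLim : TaskLimX)
    (hZeta : TaskZeta)
    (g : Fin r → Fin (P+1)) (v : Fin r → Fin N → ℕ) (a : Fin r → ℂ) (hg : ∀ k, ∃ j, g j = k)
    (K : ℕ) (hK : ∀ (d : ℕ) (loc : Prop) (M : Fin (P+1) → Fin d → ℕ)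
      (b : MvPolynomial (Fin d) ℂ), (∀ l, 1 ≤ rowM M l) → FEQ loc M (polyG g v a) b →
      ∃ A : MvPolynomial (Fin r) ℂ, A ≠ 0 ∧
        RelQ loc M g v (polyR g v (X : Fin r → MvPolynomial (Fin r) ℂ)) A (prodbQ b K))
    (θ : Fin r → ℝ) (hθ : LinearIndependent ℚ θ) (R : SmoothFan N) (hR : PrincipalG g v R)
    (b : MvPolynomial (Fin (P+1)) ℂ) (hb : InBSIdealT (polyG g v a) b) :
    ∃ Z : MvPolynomial (Fin (P+1)) ℂ,
      algebraMap _ (FractionRing (MvPolynomial (Fin (P+1)) ℂ))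
        (prodbQ b K * ∏ k, (X k + 1)) * topZetaT g v θ R = algebraMap _ _ Z := by
  classical
  set M : Fin (P+1) → Fin (P+1) → ℕ := fun k t => if k = t then 1 else 0 with hM
  have hSM : ∀ n : Fin (P+1) → ℕ, SM M n = n := by
    intro n
    funext k
    unfold SM
    rw [hM]
    simp
  have hrow : rowM M = fun _ => 1 := by
    funext k
    unfold rowM
    rw [hM]
    simp
  obtain ⟨A, hA, hrel⟩ := hK (P+1) False M b (fun l => by rw [hrow]) (hFE _ b hb)
  obtain ⟨L, hnum⟩ := hV2E (P+1) r N P False M (fun t => X t) g v A (prodbQ b K) θ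
    (fun n t => by rw [eval_X, hSM]) hθ hg (fun l => by rw [hrow]) hA hrel
    (fun s => eval (fun k => (s k : ℂ)) (prodbQ b K)) (fun n => by rw [hSM])
  have hset : {s : Fin (P+1) → ℕ | ∃ n : Fin (P+1) → ℕ, (∀ t, L ≤ n t) ∧ s = SM M n} =
      {s | ∀ k, L ≤ s k} := by
    ext s
    constructor
    · rintro ⟨n, hn, rfl⟩
      rw [hSM]
      exact hn
    · intro hs
      exact ⟨s, hs, (hSM s).symm⟩
  rw [hset, hrow] at hnum
  have hX := hRelT g v θ (prodbQ b K) L hg hnum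
  obtain ⟨Z, hZ⟩ := hZeta g v θ hg R (prodbQ b K * E1p g) fun η hη =>
    evalTW_of hKill hKer hKer2 hLim g v θ hθ hg R hR (prodbQ b K) hX η hη
  refine ⟨Z, ?_⟩
  rw [← hZ, ← E2_E1p g]
  congr 2
  ring

lemma prodb_prodbQ (b : Polynomial ℂ) (K : ℕ) (z : ℂ) :
    eval (fun _ : Fin 1 => z) (prodbQ (Polynomial.aeval (X 0) b) K) = (prodb b K).eval z := by
  unfold prodbQ prodb
  rw [map_prod, Polynomial.eval_prod]
  refine Finset.prod_congr rfl fun i _ => ?_
  rw [Polynomial.eval_comp]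
  induction b using Polynomial.induction_on' with
  | add p q hp hq => rw [map_add, map_add, map_add, hp, hq, Polynomial.eval_add]
  | monomial n c =>
    rw [Polynomial.aeval_monomial, Polynomial.eval_monomial]
    simp

/-- The relation for products. -/
theorem productW_of (hV2E : TaskV2EQ) (hRelP : TaskRelPW)
    (hKill : TaskKillX) (hKer : TaskKerX) (hKer2 : TaskKer2) (hLim : TaskLimX)
    (hZeta : TaskZetaP)
    (g : Fin r → Fin (P+1)) (v : Fin r → Fin N → ℕ) (a : Fin r → ℂ) (hg : ∀ k, ∃ j, g j = k)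
    (K : ℕ) (hK : ∀ (d : ℕ) (loc : Prop) (M : Fin (P+1) → Fin d → ℕ)
      (b : MvPolynomial (Fin d) ℂ), (∀ l, 1 ≤ rowM M l) → FEQ loc M (polyG g v a) b →
      ∃ A : MvPolynomial (Fin r) ℂ, A ≠ 0 ∧
        RelQ loc M g v (polyR g v (X : Fin r → MvPolynomial (Fin r) ℂ)) A (prodbQ b K))
    (loc : Prop) (m : Fin (P+1) → ℕ) (hm : ∀ k, 1 ≤ m k)
    (θ : Fin r → ℝ) (hθ : LinearIndependent ℚ θ) (R : SmoothFan N) (hR : PrincipalG g v R)
    (b : Polynomial ℂ)
    (hb : FEQ (d := 1) loc (fun k _ => m k) (polyG g v a) (Polynomial.aeval (X 0) b)) :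
    ∃ (n : ℕ) (Z : Polynomial ℂ),
      algebraMap (Polynomial ℂ) (RatFunc ℂ) (prodb b K *
        (∏ k : Fin (P+1), ∏ i ∈ Finset.range n,
          (Polynomial.C ((m k : ℕ) : ℂ) * Polynomial.X + Polynomial.C (i : ℂ))) ^ 3) *
        topZetaP loc g v θ m R = algebraMap (Polynomial ℂ) (RatFunc ℂ) Z := by
  classical
  set M : Fin (P+1) → Fin 1 → ℕ := fun k _ => m k with hM
  have hSM : ∀ n : Fin 1 → ℕ, SM M n = fun k => m k * n 0 := by
    intro n
    funext k
    unfold SM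
    rw [hM]
    simp
  have hrow : rowM M = m := by
    funext k
    unfold rowM
    rw [hM]
    simp
  have hm0 : (m 0 : ℂ) ≠ 0 := by
    have := hm 0
    exact_mod_cast (by omega : m 0 ≠ 0)
  obtain ⟨A, hA, hrel⟩ := hK 1 loc M _ (fun l => by rw [hrow]; exact hm l) hb
  obtain ⟨L, hnum⟩ := hV2E 1 r N P loc M (fun _ => C ((m 0 : ℂ)⁻¹) * X 0) g v A _ θ
    (fun n t => by
      rw [map_mul, eval_C, eval_X, hSM, Subsingleton.elim t 0]
      push_cast
      field_simp) hθ hg (fun l => by rw [hrow]; exact hm l) hA hrel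
    (fun s => (prodb b K).eval ((s 0 : ℂ) / (m 0 : ℂ))) (fun n => by
      rw [hSM]
      simp only
      have h1 : (((m 0 * n 0 : ℕ)) : ℂ) / (m 0 : ℂ) = (n 0 : ℂ) := by
        push_cast
        field_simp
      have h2 : (fun _ : Fin 1 => (n 0 : ℂ)) = fun t => (n t : ℂ) := by
        funext t
        rw [Subsingleton.elim t 0]
      rw [h1, ← prodb_prodbQ, h2])
  have hset : {s : Fin (P+1) → ℕ | ∃ n : Fin 1 → ℕ, (∀ t, L ≤ n t) ∧ s = SM M n} =
      {s | ∃ n : ℕ, L ≤ n ∧ s = fun k => m k * n} := by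
    ext s
    constructor
    · rintro ⟨n, hn, rfl⟩
      exact ⟨n 0, hn 0, hSM n⟩
    · rintro ⟨n, hn, rfl⟩
      exact ⟨fun _ => n, fun _ => hn, (hSM (fun _ => n)).symm⟩
  rw [hset, hrow] at hnum
  obtain ⟨n1, hn1, hX⟩ := hRelP loc g v θ m _ (prodb b K) L hg hm (fun n => by
    simp only
    congr 1
    push_cast
    field_simp) hnum
  set αx : ℝ := if loc then -1 else 1 with hαx
  have hα0 : αx ≠ 0 := by
    rw [hαx]; split_ifs <;> norm_num
  have hαl : αx < 0 ↔ loc := by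
    rw [hαx]; split_ifs with h <;> simp [h]
  obtain ⟨Q, s1, hQ⟩ := evalP_of hKill hKer hKer2 hLim g v θ hθ hg R hR m hm
    (prodb b K) n1 αx hα0
    (fun θ0 η α0 hη hα => hX θ0 η α0 αx hη hαl.2 hα)
  obtain ⟨Z, hZ⟩ := hZeta loc g v θ hg R m hm αx hα0 hαl _ Q s1 hQ
  have hd1 : (∏ k : Fin (P+1), (Polynomial.C ((m k : ℕ) : ℂ) * Polynomial.X + 1)) ∣
      riseM m n1 := by
    unfold riseM
    refine Finset.prod_dvd_prod_of_dvd _ _ fun k _ => ?_
    have h1 : (1:ℕ) ∈ Finset.range n1 := by simp; omega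
    have h2 := Finset.dvd_prod_of_mem (fun i : ℕ =>
      (Polynomial.C ((m k : ℕ) : ℂ) * Polynomial.X + Polynomial.C (i : ℂ))) h1
    simpa using h2
  have hd2 : E1m g m ∣ (∏ k : Fin (P+1), (Polynomial.C ((m k : ℕ) : ℂ) * Polynomial.X + 1)) := by
    unfold E1m
    exact Finset.prod_dvd_prod_of_subset _ _ _ (Finset.filter_subset _ _)
  obtain ⟨D1, hD1⟩ := hd1
  obtain ⟨D2, hD2⟩ := hd2.trans ⟨D1, hD1⟩
  refine ⟨n1, Z * (D1 * D2), ?_⟩
  have e4 : prodb b K *
        (∏ k : Fin (P+1), ∏ i ∈ Finset.range n1,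
          (Polynomial.C ((m k : ℕ) : ℂ) * Polynomial.X + Polynomial.C (i : ℂ))) ^ 3 =
      (prodb b K * riseM m n1 * E1m g m *
        ∏ k : Fin (P+1), (Polynomial.C ((m k : ℕ) : ℂ) * Polynomial.X + 1)) * (D1 * D2) := by
    have h1 : (∏ k : Fin (P+1), ∏ i ∈ Finset.range n1,
        (Polynomial.C ((m k : ℕ) : ℂ) * Polynomial.X + Polynomial.C (i : ℂ))) =
        riseM m n1 := rfl
    rw [h1]
    calc prodb b K * riseM m n1 ^ 3 =
        prodb b K * riseM m n1 * riseM m n1 * riseM m n1 := by ring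
      _ = prodb b K * riseM m n1 * (E1m g m * D2) *
          ((∏ k : Fin (P+1), (Polynomial.C ((m k : ℕ) : ℂ) * Polynomial.X + 1)) * D1) := by
        rw [← hD2, ← hD1]
      _ = _ := by ring
  rw [e4, map_mul, mul_right_comm, hZ, ← map_mul]

end Pool.Agent.W423.NT
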