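import Pool.Agent.W423.NT.Ev
import Pool.Agent.W425.ND.Fin1
import Pool.Agent.W356.NT.Alg
import Pool.Agent.W864.NT.Brk
import Pool.Agent.W346.NT.GEN
import Pool.Agent.W346.NT.REP1
import Pool.Agent.W125.NT.Rep2
import Pool.Agent.W193.NT.Spec
import Pool.Agent.W378.NT.DESCQ
import Pool.Agent.W721.NT.NDC

set_option autoImplicit false

/-! Project NT: the deformation theorem with all its parts. -/

namespace Pool.Agent.W423.NT

open MvPolynomial Pool.Agent.W423.MG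

variable {r N P : ℕ}

theorem relY (g : Fin r → Fin (P+1)) (v : Fin r → Fin N → ℕ) (a : Fin r → ℂ)
    (hg : ∀ k, ∃ j, g j = k) (hnd : NondegT g v a) :
    ∃ K : ℕ, ∀ (d : ℕ) (loc : Prop) (M : Fin (P+1) → Fin d → ℕ) (b : MvPolynomial (Fin d) ℂ),
      (∀ l, 1 ≤ rowM M l) → FEQ loc M (polyG g v a) b →
      ∃ A : MvPolynomial (Fin r) ℂ, A ≠ 0 ∧
        RelQ loc M g v (polyR g v (X : Fin r → MvPolynomial (Fin r) ℂ)) A (prodbQ b K) :=
  relY_of Pool.Agent.W782.ND.cn Pool.Agent.W240.ND.taskEXP Pool.Agent.W977.ND.nak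
    Pool.Agent.W425.ND.parts.kou Pool.Agent.W356.NT.alg Pool.Agent.W864.NT.taskBRKQ
    Pool.Agent.W346.NT.genq Pool.Agent.W346.NT.rep1q Pool.Agent.W125.NT.rep2
    Pool.Agent.W193.NT.taskSPECQ Pool.Agent.W378.NTQ.taskDESCQ Pool.Agent.W721.NT.ndc
    g v a hg hnd

end Pool.Agent.W423.NT
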